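import Pool.Agent.Helper74.CD.Log

/-!
# The bound for products
-/

set_option autoImplicit false
set_option linter.unusedSectionVars false

namespace CDep
open Finset MvPolynomial

/-- the majorant -/
noncomputable def Psi (x θ : ℝ) (T' : ℕ) (s : ℕ) : ℝ := max (min x 1) (θ ^ ((s : ℝ) / T'))

theorem Psi_zero (x θ : ℝ) (T' : ℕ) : Psi x θ T' 0 = 1 := by
  unfold Psi
  rw [Nat.cast_zero, zero_div, Real.rpow_zero]
  exact max_eq_right (min_le_right _ _)

theorem Psi_nonneg (x θ : ℝ) (hθ : 0 < θ) (T' s : ℕ) : 0 ≤ Psi x θ T' s :=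
  (Real.rpow_pos_of_pos hθ _).le.trans (le_max_right _ _)

theorem Psi_mul (x θ : ℝ) (hx : 0 ≤ x) (hθ : 0 < θ) (hθ1 : θ ≤ 1) (T' s t : ℕ) :
    Psi x θ T' s * Psi x θ T' t ≤ Psi x θ T' (s + t) := by
  have h1 : 0 ≤ min x 1 := le_min hx zero_le_one
  have h2 : min x 1 ≤ 1 := min_le_right _ _
  have hr : ∀ u : ℕ, 0 < θ ^ ((u : ℝ) / T') := fun u => Real.rpow_pos_of_pos hθ _
  have hr1 : ∀ u : ℕ, θ ^ ((u : ℝ) / T') ≤ 1 := fun u =>
    Real.rpow_le_one hθ.le hθ1 (div_nonneg (Nat.cast_nonneg _) (Nat.cast_nonneg _))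
  have hmul : θ ^ ((s : ℝ) / T') * θ ^ ((t : ℝ) / T') = θ ^ (((s + t : ℕ) : ℝ) / T') := by
    rw [← Real.rpow_add hθ]
    congr 1
    push_cast
    ring
  unfold Psi
  rcases le_total (min x 1) (θ ^ ((s : ℝ) / T')) with hs | hs <;>
    rcases le_total (min x 1) (θ ^ ((t : ℝ) / T')) with ht | ht
  · rw [max_eq_right hs, max_eq_right ht, hmul]
    exact le_max_right _ _
  · rw [max_eq_right hs, max_eq_left ht]
    refine le_trans ?_ (le_max_left _ _)
    calc θ ^ ((s : ℝ) / T') * min x 1 ≤ 1 * min x 1 := mul_le_mul_of_nonneg_right (hr1 s) h1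
      _ = min x 1 := one_mul _
  · rw [max_eq_left hs, max_eq_right ht]
    refine le_trans ?_ (le_max_left _ _)
    calc min x 1 * θ ^ ((t : ℝ) / T') ≤ min x 1 * 1 := mul_le_mul_of_nonneg_left (hr1 t) h1
      _ = min x 1 := mul_one _
  · rw [max_eq_left hs, max_eq_left ht]
    refine le_trans ?_ (le_max_left _ _)
    calc min x 1 * min x 1 ≤ min x 1 * 1 := mul_le_mul_of_nonneg_left h2 h1
      _ = min x 1 := mul_one _

/-- for large sets -/
theorem Psi_large (A θ : ℝ) (hA : 1 ≤ A) (hθ : 0 < θ) (hθ1 : θ ≤ 1) (T' s : ℕ) (hT : 1 ≤ T') (hs : T' ≤ s) :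
    Psi (A * θ) θ T' s ≤ A * θ := by
  unfold Psi
  refine max_le (min_le_left _ _) ?_
  have h1 : (1 : ℝ) ≤ (s : ℝ) / T' := by
    rw [le_div_iff₀ (by exact_mod_cast hT)]
    rw [one_mul]
    exact_mod_cast hs
  calc θ ^ ((s : ℝ) / T') ≤ θ ^ (1 : ℝ) := Real.rpow_le_rpow_of_exponent_ge hθ hθ1 h1
    _ = θ := Real.rpow_one θ
    _ = 1 * θ := (one_mul θ).symm
    _ ≤ A * θ := mul_le_mul_of_nonneg_right hA hθ.le

section rec

variable {B : Type} [DecidableEq B]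

theorem step_bound (Ψ : ℕ → ℝ) (hpos : ∀ s, 0 ≤ Ψ s) (hmul : ∀ s t, Ψ s * Ψ t ≤ Ψ (s + t)) (D : Finset B)
    (hD : D.Nonempty) :
    ∑ T ∈ D.powerset.erase ∅, Ψ T.card * ((2 : ℝ) ^ ((D \ T).card ^ 2) * Ψ (D \ T).card) ≤
      2 ^ (D.card ^ 2) * Ψ D.card := by
  have hD1 : 1 ≤ D.card := card_pos.2 hD
  have h1 : ∀ T ∈ D.powerset.erase ∅, Ψ T.card * ((2 : ℝ) ^ ((D \ T).card ^ 2) * Ψ (D \ T).card) ≤
      2 ^ ((D.card - 1) ^ 2) * Ψ D.card := by
    intro T hT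
    obtain ⟨hT0, hTD⟩ := mem_erase.1 hT
    rw [mem_powerset] at hTD
    have hT1 : 1 ≤ T.card := card_pos.2 (nonempty_iff_ne_empty.2 hT0)
    have h2 : (D \ T).card ≤ D.card - 1 := by
      rw [card_sdiff_of_subset hTD]
      omega
    have h3 : T.card + (D \ T).card = D.card := by
      rw [card_sdiff_of_subset hTD]
      have := card_le_card hTD
      omega
    calc Ψ T.card * ((2 : ℝ) ^ ((D \ T).card ^ 2) * Ψ (D \ T).card)
        = 2 ^ ((D \ T).card ^ 2) * (Ψ T.card * Ψ (D \ T).card) := by ring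
      _ ≤ 2 ^ ((D \ T).card ^ 2) * Ψ D.card := by
          refine mul_le_mul_of_nonneg_left ?_ (by positivity)
          rw [← h3]
          exact hmul _ _
      _ ≤ 2 ^ ((D.card - 1) ^ 2) * Ψ D.card := by
          refine mul_le_mul_of_nonneg_right ?_ (hpos _)
          exact pow_le_pow_right₀ (by norm_num) (Nat.pow_le_pow_left h2 2)
  refine (Finset.sum_le_card_nsmul _ _ _ h1).trans ?_
  rw [nsmul_eq_mul]
  have h2 : ((D.powerset.erase ∅).card : ℝ) ≤ 2 ^ D.card := by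
    have : (D.powerset.erase ∅).card ≤ 2 ^ D.card := by
      rw [← card_powerset]
      exact card_erase_le
    exact_mod_cast this
  calc ((D.powerset.erase ∅).card : ℝ) * (2 ^ ((D.card - 1) ^ 2) * Ψ D.card)
      ≤ 2 ^ D.card * (2 ^ ((D.card - 1) ^ 2) * Ψ D.card) :=
        mul_le_mul_of_nonneg_right h2 (mul_nonneg (by positivity) (hpos _))
    _ = 2 ^ (D.card + (D.card - 1) ^ 2) * Ψ D.card := by rw [pow_add]; ring
    _ ≤ 2 ^ (D.card ^ 2) * Ψ D.card := by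
        refine mul_le_mul_of_nonneg_right ?_ (hpos _)
        refine pow_le_pow_right₀ (by norm_num) ?_
        obtain ⟨n, hn⟩ : ∃ n, D.card = n + 1 := ⟨D.card - 1, by omega⟩
        rw [hn, Nat.add_sub_cancel]
        nlinarith

theorem rec_bound (Ψ : ℕ → ℝ) (h0 : Ψ 0 = 1) (hpos : ∀ s, 0 ≤ Ψ s) (hmul : ∀ s t, Ψ s * Ψ t ≤ Ψ (s + t))
    (m : Finset B → ℝ) (hm0 : m ∅ ≤ 1)
    (hrec : ∀ S, S.Nonempty → m S ≤ ∑ T ∈ S.powerset.erase ∅, Ψ T.card * m (S \ T)) (S : Finset B) :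
    m S ≤ 2 ^ (S.card ^ 2) * Ψ S.card := by
  induction S using Finset.strongInduction with
  | H S ih =>
    rcases S.eq_empty_or_nonempty with rfl | hS
    · rw [card_empty, h0]
      norm_num
      exact hm0
    · refine (hrec S hS).trans ((Finset.sum_le_sum fun T hT => ?_).trans (step_bound Ψ hpos hmul S hS))
      obtain ⟨hT0, hTS⟩ := mem_erase.1 hT
      rw [mem_powerset] at hTS
      exact mul_le_mul_of_nonneg_left (ih _ (Finset.sdiff_ssubset hTS (nonempty_iff_ne_empty.2 hT0))) (hpos _)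

end rec

section main

variable {I J U V F : Type} [Fintype I] [DecidableEq I] [Fintype J] [DecidableEq J] [Fintype U] [DecidableEq U]
  [Fintype V] [DecidableEq V] [Field F] [Nonempty U] [Nonempty V]

theorem mu_hd_sub (S T : Finset (I ⊕ J)) (hT : T ⊆ S) (A B : Matrix (I → U) (J → V) F) :
    mu S (hd A B) ≤ mu T A * mu (S \ T) B := by
  have h := mu_hd_le T (S \ T) Finset.disjoint_sdiff A B
  rwa [Finset.union_sdiff_of_subset hT] at h

theorem rank_const_le (c : F) : (Matrix.of fun (_ : I → U) (_ : J → V) => c).rank ≤ 1 := by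
  have h : (Matrix.of fun (_ : I → U) (_ : J → V) => c) =
      (Matrix.of fun (_ : I → U) (_ : Unit) => c) * (Matrix.of fun (_ : Unit) (_ : J → V) => (1 : F)) := by
    ext ρ γ
    rw [Matrix.mul_apply]
    simp
  refine (rank_le_of_fact _ _ _ h).trans ?_
  simp

theorem mu_empty_const (c : F) (A : Matrix (I → U) (J → V) F) (hA : ∀ ρ γ, A ρ γ = c) : mu ∅ A ≤ 1 := by
  have h : A = Matrix.of fun (_ : I → U) (_ : J → V) => c := by
    ext ρ γ
    exact hA ρ γ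
  have h1 : (∅ : Finset (I ⊕ J)).toLeft = ∅ := by ext; simp
  have h2 : (∅ : Finset (I ⊕ J)).toRight = ∅ := by ext; simp
  unfold mu NN
  rw [h1, h2, card_empty, card_empty, pow_zero, pow_zero, mul_one, Real.sqrt_one, div_one, h]
  exact_mod_cast rank_const_le c

/-- the bound for the set-multilinear parts of a factor -/
theorem mu_le_Psi (g : MvPolynomial ((I × U) ⊕ (J × V)) F) (A θ : ℝ) (T T' : ℕ) (hgood : Good I J U V θ T T')
    (h : ∀ S : Finset (I ⊕ J), T ≤ S.card → mu S (cmp g S) ≤ A * θ) (S : Finset (I ⊕ J)) (hS : S.Nonempty) :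
    mu S (cmp g S) ≤ Psi (A * θ) θ T' S.card := by
  unfold Psi
  rcases le_or_gt T S.card with h1 | h1
  · exact (le_min (h S h1) (mu_le_one S _ (dep_cmp g S))).trans (le_max_left _ _)
  · exact ((mu_le_om S _ (dep_cmp g S)).trans (hgood S hS h1)).trans (le_max_right _ _)

/-- the bound for the parts of the inverse -/
theorem mu_cinv_le (g : MvPolynomial ((I × U) ⊕ (J × V)) F) (hg : constantCoeff g ≠ 0) (Ψ : ℕ → ℝ) (h0 : Ψ 0 = 1)
    (hpos : ∀ s, 0 ≤ Ψ s) (hmul : ∀ s t, Ψ s * Ψ t ≤ Ψ (s + t))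
    (h : ∀ S : Finset (I ⊕ J), S.Nonempty → mu S (cmp g S) ≤ Ψ S.card) (S : Finset (I ⊕ J)) :
    mu S (cinv g S) ≤ 2 ^ (S.card ^ 2) * Ψ S.card := by
  refine rec_bound Ψ h0 hpos hmul (fun S => mu S (cinv g S)) (mu_empty_const _ _ (cinv_empty g)) (fun S hS => ?_) S
  rw [cinv_rec g hg S hS]
  refine (mu_smul_le _ _ _).trans ((mu_sum_le _ _ _).trans (Finset.sum_le_sum fun T hT => ?_))
  obtain ⟨hT0, hTS⟩ := mem_erase.1 hT
  rw [mem_powerset] at hTS
  refine (mu_hd_sub S T hTS _ _).trans (mul_le_mul_of_nonneg_right (h T (nonempty_iff_ne_empty.2 hT0)) (mu_nonneg _ _))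

theorem mu_lam_le (g : MvPolynomial ((I × U) ⊕ (J × V)) F) (hg : constantCoeff g ≠ 0) (Ψ : ℕ → ℝ) (h0 : Ψ 0 = 1)
    (hpos : ∀ s, 0 ≤ Ψ s) (hmul : ∀ s t, Ψ s * Ψ t ≤ Ψ (s + t))
    (h : ∀ S : Finset (I ⊕ J), S.Nonempty → mu S (cmp g S) ≤ Ψ S.card) (a : I ⊕ J) (D : Finset (I ⊕ J))
    (hD : D.Nonempty) : mu D (lam g a D) ≤ 2 ^ (D.card ^ 2) * Ψ D.card := by
  have hl : lam g a D = ∑ E ∈ D.powerset.erase ∅, if a ∈ E then hd (cmp g E) (cinv g (D \ E)) else 0 := by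
    unfold lam
    rw [← Finset.add_sum_erase _ _ (empty_mem_powerset D), if_neg (notMem_empty a), zero_add]
  rw [hl]
  refine (mu_sum_le _ _ _).trans ((Finset.sum_le_sum fun E hE => ?_).trans (step_bound Ψ hpos hmul D hD))
  obtain ⟨hE0, hED⟩ := mem_erase.1 hE
  rw [mem_powerset] at hED
  have hb := mu_cinv_le g hg Ψ h0 hpos hmul h (D \ E)
  have hEn := h E (nonempty_iff_ne_empty.2 hE0)
  split_ifs with ha
  · exact (mu_hd_sub D E hED _ _).trans (mul_le_mul hEn hb (mu_nonneg _ _) (hpos _))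
  · rw [mu_zero]
    exact mul_nonneg (hpos _) (mul_nonneg (by positivity) (hpos _))

/-- products of polynomials with nonzero constant terms -/
theorem prod_bound_ne {ι : Type*} (t : Finset ι) (g : ι → MvPolynomial ((I × U) ⊕ (J × V)) F)
    (hg : ∀ i ∈ t, constantCoeff (g i) ≠ 0) (A θ : ℝ) (hA : 1 ≤ A) (hθ : 0 < θ) (hθ1 : θ ≤ 1) (T T' T'' : ℕ)
    (hT' : 1 ≤ T') (hT'' : 1 ≤ T'') (h1 : Good I J U V θ T T') (h2 : Good I J U V θ T' T'')
    (h : ∀ i ∈ t, ∀ S : Finset (I ⊕ J), T ≤ S.card → mu S (cmp (g i) S) ≤ A * θ) (S : Finset (I ⊕ J))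
    (hS : T'' ≤ S.card) :
    mu S (cmp (∏ i ∈ t, g i) S) ≤
      2 ^ (Fintype.card (I ⊕ J) ^ 2) * ((t.card + 1) * 2 ^ (Fintype.card (I ⊕ J) ^ 2) * A) * θ := by
  set d := Fintype.card (I ⊕ J) with hdd
  have hcard : ∀ S : Finset (I ⊕ J), S.card ≤ d := fun S => Finset.card_le_univ S
  have hpow : ∀ S : Finset (I ⊕ J), (2 : ℝ) ^ (S.card ^ 2) ≤ 2 ^ (d ^ 2) := fun S =>
    pow_le_pow_right₀ (by norm_num) (Nat.pow_le_pow_left (hcard S) 2)
  have hA0 : 0 ≤ A * θ := mul_nonneg (zero_le_one.trans hA) hθ.le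
  set A' : ℝ := (t.card + 1) * 2 ^ (d ^ 2) * A with hA'
  have hA'1 : 1 ≤ A' := by
    have e1 : (1 : ℝ) ≤ (t.card : ℝ) + 1 := by linarith [Nat.cast_nonneg (α := ℝ) t.card]
    have e2 : (1 : ℝ) ≤ 2 ^ (d ^ 2) := one_le_pow₀ (by norm_num)
    calc (1 : ℝ) = 1 * 1 * 1 := by ring
      _ ≤ (t.card + 1) * 2 ^ (d ^ 2) * A := by gcongr
  have hA'0 : 0 ≤ A' * θ := mul_nonneg (zero_le_one.trans hA'1) hθ.le
  -- the logarithmic derivatives
  have hL : ∀ (a : I ⊕ J) (D : Finset (I ⊕ J)), D.Nonempty → mu D (∑ i ∈ t, lam (g i) a D) ≤ Psi (A' * θ) θ T'' D.card := by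
    intro a D hD
    have hdep : Dep D (∑ i ∈ t, lam (g i) a D) := Dep.sum _ fun i hi => dep_lam (g i) (hg i hi) a D
    unfold Psi
    rcases le_or_gt T' D.card with hc | hc
    · refine le_trans (le_min ?_ (mu_le_one D _ hdep)) (le_max_left _ _)
      refine (mu_sum_le _ _ _).trans ?_
      have e1 : ∀ i ∈ t, mu D (lam (g i) a D) ≤ 2 ^ (d ^ 2) * (A * θ) := by
        intro i hi
        refine (mu_lam_le (g i) (hg i hi) (Psi (A * θ) θ T') (Psi_zero _ _ _) (Psi_nonneg _ _ hθ T')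
          (Psi_mul _ _ hA0 hθ hθ1 T') (fun S hS => mu_le_Psi (g i) A θ T T' h1 (h i hi) S hS) a D hD).trans ?_
        exact mul_le_mul (hpow D) (Psi_large A θ hA hθ hθ1 T' _ hT' hc) (Psi_nonneg _ _ hθ _ _) (by positivity)
      refine (Finset.sum_le_card_nsmul _ _ _ e1).trans ?_
      rw [nsmul_eq_mul, hA']
      have e2 : (t.card : ℝ) * (2 ^ (d ^ 2) * (A * θ)) ≤ (t.card + 1) * (2 ^ (d ^ 2) * (A * θ)) :=
        mul_le_mul_of_nonneg_right (by linarith) (mul_nonneg (by positivity) hA0)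
      calc (t.card : ℝ) * (2 ^ (d ^ 2) * (A * θ)) ≤ _ := e2
        _ = _ := by ring
    · exact ((mu_le_om D _ hdep).trans (h2 D hD hc)).trans (le_max_right _ _)
  have hfin := rec_bound (Psi (A' * θ) θ T'') (Psi_zero _ _ _) (Psi_nonneg _ _ hθ T'') (Psi_mul _ _ hA'0 hθ hθ1 T'')
    (fun S => mu S (cmp (∏ i ∈ t, g i) S)) (mu_empty_const _ _ (cmp_empty _)) (fun S hS => by
      obtain ⟨a, ha⟩ := hS
      have e := cmp_prod_rec t g hg S a ha
      calc mu S (cmp (∏ i ∈ t, g i) S) = mu S (∑ D ∈ S.powerset.erase ∅,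
            hd (∑ i ∈ t, lam (g i) a D) (cmp (∏ i ∈ t, g i) (S \ D))) := by rw [← e]
        _ ≤ ∑ D ∈ S.powerset.erase ∅, mu S (hd (∑ i ∈ t, lam (g i) a D) (cmp (∏ i ∈ t, g i) (S \ D))) :=
            mu_sum_le _ _ _
        _ ≤ _ := by
            refine Finset.sum_le_sum fun D hD => ?_
            obtain ⟨hD0, hDS⟩ := mem_erase.1 hD
            rw [mem_powerset] at hDS
            exact (mu_hd_sub S D hDS _ _).trans (mul_le_mul_of_nonneg_right (hL a D (nonempty_iff_ne_empty.2 hD0))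
              (mu_nonneg _ _))) S
  calc mu S (cmp (∏ i ∈ t, g i) S) ≤ 2 ^ (S.card ^ 2) * Psi (A' * θ) θ T'' S.card := hfin
    _ ≤ 2 ^ (d ^ 2) * (A' * θ) :=
        mul_le_mul (hpow S) (Psi_large A' θ hA'1 hθ hθ1 T'' _ hT'' hS) (Psi_nonneg _ _ hθ _ _) (by positivity)
    _ = 2 ^ (d ^ 2) * A' * θ := by ring

/-- the general product -/
theorem prod_bound {ι : Type*} (t : Finset ι) (g : ι → MvPolynomial ((I × U) ⊕ (J × V)) F)
    (A θ : ℝ) (hA : 1 ≤ A) (hθ : 0 < θ) (hθ1 : θ ≤ 1) (T T' T'' : ℕ) (hT : 1 ≤ T)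
    (hT' : 1 ≤ T') (hT'' : 1 ≤ T'') (h1 : Good I J U V θ T T') (h2 : Good I J U V θ T' T'')
    (h : ∀ i ∈ t, ∀ S : Finset (I ⊕ J), T ≤ S.card → mu S (cmp (g i) S) ≤ A * θ) (S : Finset (I ⊕ J))
    (hS : T'' ≤ S.card) :
    mu S (cmp (∏ i ∈ t, g i) S) ≤ 2 ^ Fintype.card (I ⊕ J) *
      (2 ^ (Fintype.card (I ⊕ J) ^ 2) * ((t.card + 1) * 2 ^ (Fintype.card (I ⊕ J) ^ 2) * A) * θ) := by
  classical
  set Z := t.filter fun i => constantCoeff (g i) = 0 with hZ
  set N := t.filter fun i => ¬ constantCoeff (g i) = 0 with hN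
  have hsplit : ∏ i ∈ t, g i = (∏ i ∈ Z, g i) * ∏ i ∈ N, g i := (Finset.prod_filter_mul_prod_filter_not _ _ _).symm
  have hr : 0 ≤ (2 : ℝ) ^ (Fintype.card (I ⊕ J) ^ 2) * ((t.card + 1) * 2 ^ (Fintype.card (I ⊕ J) ^ 2) * A) * θ := by
    have : 0 ≤ A := zero_le_one.trans hA
    positivity
  rcases lt_or_ge S.card Z.card with hc | hc
  · rw [hsplit, cmp_prod_zero Z g (fun i hi => (mem_filter.1 hi).2) _ S hc, mu_zero]
    positivity
  · have e1 : ∏ i ∈ Z, g i = ∑ Y ∈ Z.powerset, (∏ i ∈ Y, (1 + g i)) * ∏ i ∈ Z \ Y, (-1 : MvPolynomial ((I × U) ⊕ (J × V)) F) := by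
      rw [← Finset.prod_add]
      refine Finset.prod_congr rfl fun i _ => ?_
      ring
    have e2 : ∏ i ∈ t, g i = ∑ Y ∈ Z.powerset, ((-1 : F) ^ (Z \ Y).card) •
        ∏ i ∈ Y ∪ N, (if i ∈ Z then 1 + g i else g i) := by
      rw [hsplit, e1, Finset.sum_mul]
      refine Finset.sum_congr rfl fun Y hY => ?_
      rw [mem_powerset] at hY
      have hdisj : Disjoint Y N := by
        rw [Finset.disjoint_left]
        intro i hi hi2
        exact (mem_filter.1 hi2).2 (mem_filter.1 (hY hi)).2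
      rw [Finset.prod_union hdisj]
      have e3 : ∏ i ∈ Y, (if i ∈ Z then 1 + g i else g i) = ∏ i ∈ Y, (1 + g i) :=
        Finset.prod_congr rfl fun i hi => if_pos (hY hi)
      have e4 : ∏ i ∈ N, (if i ∈ Z then 1 + g i else g i) = ∏ i ∈ N, g i :=
        Finset.prod_congr rfl fun i hi => if_neg (fun h : i ∈ Z => (mem_filter.1 hi).2 (mem_filter.1 h).2)
      rw [e3, e4, Finset.prod_const, smul_eq_C_mul, C_pow, C_neg, C_1]
      ring
    rw [e2, cmp_sum]
    have hbound : ∀ Y ∈ Z.powerset, mu S (cmp (((-1 : F) ^ (Z \ Y).card) •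
        ∏ i ∈ Y ∪ N, (if i ∈ Z then 1 + g i else g i)) S) ≤
        2 ^ (Fintype.card (I ⊕ J) ^ 2) * ((t.card + 1) * 2 ^ (Fintype.card (I ⊕ J) ^ 2) * A) * θ := by
      intro Y hY
      rw [mem_powerset] at hY
      rw [cmp_smul]
      refine (mu_smul_le _ _ _).trans ?_
      have hsub : Y ∪ N ⊆ t := Finset.union_subset (hY.trans (filter_subset _ _)) (filter_subset _ _)
      refine (prod_bound_ne (Y ∪ N) (fun i => if i ∈ Z then 1 + g i else g i) ?_ A θ hA hθ hθ1 T T' T'' hT' hT'' h1 h2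
        ?_ S hS).trans ?_
      · intro i hi
        split_ifs with hiZ
        · rw [map_add, map_one, (mem_filter.1 hiZ).2, add_zero]
          exact one_ne_zero
        · intro h0
          exact hiZ (mem_filter.2 ⟨hsub hi, h0⟩)
      · intro i hi S' hS'
        have hne : S'.Nonempty := card_pos.1 (hT.trans hS')
        split_ifs with hiZ
        · have e5 : cmp (1 + g i) S' = cmp (g i) S' := by
            rw [cmp_add, ← C_1, cmp_C 1 S' hne, zero_add]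
          rw [e5]
          exact h i (hsub hi) S' hS'
        · exact h i (hsub hi) S' hS'
      · have e6 : ((Y ∪ N).card : ℝ) ≤ t.card := by exact_mod_cast card_le_card hsub
        have : 0 ≤ A := zero_le_one.trans hA
        gcongr
    refine (mu_sum_le _ _ _).trans ((Finset.sum_le_card_nsmul _ _ _ hbound).trans ?_)
    rw [nsmul_eq_mul, card_powerset]
    refine mul_le_mul_of_nonneg_right ?_ hr
    push_cast
    exact pow_le_pow_right₀ (by norm_num) (hc.trans (Finset.card_le_univ S))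

end main

end CDep
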