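import Pool.Agent.Helper74.CD.Bound

/-!
# The bound for circuits
-/

set_option autoImplicit false
set_option linter.unusedSectionVars false

namespace CDep
open Finset MvPolynomial

variable {I J U V F : Type} [Fintype I] [DecidableEq I] [Fintype J] [DecidableEq J] [Fintype U] [DecidableEq U]
  [Fintype V] [DecidableEq V] [Field F] [Nonempty U] [Nonempty V]

/-- linear combinations -/
theorem exists_coeffs {r : ℕ} (y : Fin r → MvPolynomial ((I × U) ⊕ (J × V)) F) (Q : Fin r → Prop)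
    (l : MvPolynomial ((I × U) ⊕ (J × V)) F)
    (hl : l ∈ Submodule.span F ({1} ∪ Set.range X ∪ {g | ∃ j', Q j' ∧ g = y j'})) :
    ∃ c : Fin r → F, (∀ j, ¬ Q j → c j = 0) ∧
      ∀ S : Finset (I ⊕ J), 2 ≤ S.card → cmp l S = ∑ j, c j • cmp (y j) S := by
  classical
  induction hl using Submodule.span_induction with
  | mem g hg =>
    rcases hg with (hg | ⟨x, rfl⟩) | ⟨j', hj', rfl⟩
    · rw [Set.mem_singleton_iff] at hg
      subst hg
      refine ⟨0, fun _ _ => rfl, fun S hS => ?_⟩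
      have hne : S.Nonempty := card_pos.1 (by omega)
      rw [← C_1, cmp_C 1 S hne]
      simp
    · refine ⟨0, fun _ _ => rfl, fun S hS => ?_⟩
      rw [cmp_X x S hS]
      simp
    · refine ⟨Pi.single j' 1, fun j hj => ?_, fun S hS => ?_⟩
      · rw [Pi.single_eq_of_ne]
        rintro rfl
        exact hj hj'
      · rw [Finset.sum_eq_single j']
        · rw [Pi.single_eq_same, one_smul]
        · intro b _ hb
          rw [Pi.single_eq_of_ne hb, zero_smul]
        · intro h
          exact absurd (mem_univ _) h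
  | zero =>
    refine ⟨0, fun _ _ => rfl, fun S _ => ?_⟩
    rw [cmp_zero]
    simp
  | add g h _ _ hg hh =>
    obtain ⟨c, hc, hc2⟩ := hg
    obtain ⟨c', hc', hc2'⟩ := hh
    refine ⟨c + c', fun j hj => ?_, fun S hS => ?_⟩
    · rw [Pi.add_apply, hc j hj, hc' j hj, add_zero]
    · rw [cmp_add, hc2 S hS, hc2' S hS, ← Finset.sum_add_distrib]
      exact Finset.sum_congr rfl fun j _ => by rw [Pi.add_apply, add_smul]
  | smul a g _ hg =>
    obtain ⟨c, hc, hc2⟩ := hg
    refine ⟨a • c, fun j hj => ?_, fun S hS => ?_⟩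
    · rw [Pi.smul_apply, hc j hj, smul_zero]
    · rw [cmp_smul, hc2 S hS, Finset.smul_sum]
      exact Finset.sum_congr rfl fun j _ => by rw [Pi.smul_apply, smul_assoc]

theorem comb_bound {r : ℕ} (y : Fin r → MvPolynomial ((I × U) ⊕ (J × V)) F) (Q : Fin r → Prop)
    (l : MvPolynomial ((I × U) ⊕ (J × V)) F)
    (hl : l ∈ Submodule.span F ({1} ∪ Set.range X ∪ {g | ∃ j', Q j' ∧ g = y j'})) (S : Finset (I ⊕ J))
    (hS : 2 ≤ S.card) (b : ℝ) (hb : 0 ≤ b) (h : ∀ j, Q j → mu S (cmp (y j) S) ≤ b) :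
    mu S (cmp l S) ≤ r * b := by
  classical
  obtain ⟨c, hc, hc2⟩ := exists_coeffs y Q l hl
  rw [hc2 S hS]
  refine (mu_sum_le _ _ _).trans ?_
  have h1 : ∀ j ∈ (univ : Finset (Fin r)), mu S (c j • cmp (y j) S) ≤ b := by
    intro j _
    by_cases hj : Q j
    · exact (mu_smul_le _ _ _).trans (h j hj)
    · rw [hc j hj, zero_smul, mu_zero]
      exact hb
  refine (Finset.sum_le_card_nsmul _ _ _ h1).trans ?_
  rw [card_univ, Fintype.card_fin, nsmul_eq_mul]

/-- **Circuits.** -/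
theorem circ_bound (Δ s : ℕ) (P : MvPolynomial ((I × U) ⊕ (J × V)) F) (hP : Comp Δ s P) (θ : ℝ) (hθ : 0 < θ)
    (hθ1 : θ ≤ 1) (T : ℕ → ℕ) (hT0 : T 0 = 2) (hmono : Monotone T)
    (hgood : ∀ i < 2 * Δ, Good I J U V θ (T i) (T (i + 1))) (S : Finset (I ⊕ J)) (hS : T (2 * Δ) ≤ S.card) :
    mu S (cmp P S) ≤ (2 ^ Fintype.card (I ⊕ J) * (2 ^ (Fintype.card (I ⊕ J) ^ 2)) ^ 2 * (s : ℝ) ^ 2) ^ Δ * s * θ := by
  classical
  obtain ⟨r, y, dep, m, G, hdep, hy, hG, hPs, hs⟩ := hP
  set d := Fintype.card (I ⊕ J) with hdd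
  set w : ℝ := 2 ^ d * (2 ^ (d ^ 2)) ^ 2 with hw
  have hw1 : 1 ≤ w := by
    have e1 : (1 : ℝ) ≤ 2 ^ d := one_le_pow₀ (by norm_num)
    have e2 : (1 : ℝ) ≤ (2 ^ (d ^ 2)) ^ 2 := one_le_pow₀ (one_le_pow₀ (by norm_num))
    calc (1 : ℝ) = 1 * 1 := by ring
      _ ≤ _ := mul_le_mul e1 e2 zero_le_one (zero_le_one.trans e1)
  have hT1 : ∀ i, 1 ≤ T i := fun i => by
    have := hmono (Nat.zero_le i)
    omega
  have hPs' : P ∈ Submodule.span F ({1} ∪ Set.range X ∪ {g | ∃ j', True ∧ g = y j'}) := by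
    have : {g | ∃ j', True ∧ g = y j'} = Set.range y := by
      ext g
      constructor
      · rintro ⟨j', _, rfl⟩
        exact ⟨j', rfl⟩
      · rintro ⟨j', rfl⟩
        exact ⟨j', trivial, rfl⟩
    rw [this]
    exact hPs
  have hS2 : 2 ≤ S.card := by
    have := hmono (Nat.zero_le (2 * Δ))
    omega
  rcases Nat.eq_zero_or_pos s with hs0 | hs0
  · -- no gates
    have hr : r = 0 := by
      by_contra hr
      have h1 : m ⟨0, Nat.pos_of_ne_zero hr⟩ + 1 ≤ ∑ j, (m j + 1) :=
        Finset.single_le_sum (f := fun j => m j + 1) (fun _ _ => Nat.zero_le _) (mem_univ _)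
      omega
    subst hr
    obtain ⟨c, _, hc2⟩ := exists_coeffs y (fun _ => True) P hPs'
    rw [hc2 S hS2, Finset.univ_eq_empty, Finset.sum_empty, mu_zero, hs0]
    simp
  have hs1 : (1 : ℝ) ≤ s := by exact_mod_cast hs0
  set K : ℝ := w * (s : ℝ) ^ 2 with hK
  have hK1 : 1 ≤ K := by
    calc (1 : ℝ) = 1 * 1 ^ 2 := by ring
      _ ≤ w * (s : ℝ) ^ 2 := by gcongr
  have hrs : (r : ℝ) ≤ s := by
    have h1 : r ≤ ∑ j : Fin r, (m j + 1) := by
      calc r = ∑ _j : Fin r, 1 := by simp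
        _ ≤ _ := Finset.sum_le_sum fun j _ => by omega
    exact_mod_cast h1.trans hs
  have hms : ∀ j, (m j : ℝ) + 1 ≤ s := by
    intro j
    have h1 : m j + 1 ≤ ∑ j, (m j + 1) :=
      Finset.single_le_sum (f := fun j => m j + 1) (fun _ _ => Nat.zero_le _) (mem_univ j)
    exact_mod_cast h1.trans hs
  -- lines
  have line : ∀ (Q : Fin r → Prop) (l : MvPolynomial ((I × U) ⊕ (J × V)) F),
      l ∈ Submodule.span F ({1} ∪ Set.range X ∪ {g | ∃ j', Q j' ∧ g = y j'}) → ∀ (D : ℕ) (S : Finset (I ⊕ J)),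
      2 ≤ S.card → (∀ j, Q j → dep j < D) → (∀ j, Q j → mu S (cmp (y j) S) ≤ w * s * K ^ dep j * θ) →
      mu S (cmp l S) ≤ K ^ D * θ := by
    intro Q l hl D S hS hQ h
    rcases Nat.eq_zero_or_pos D with hD | hD
    · subst hD
      refine (comb_bound y Q l hl S hS 0 le_rfl fun j hj => absurd (hQ j hj) (Nat.not_lt_zero _)).trans ?_
      rw [mul_zero]
      positivity
    · refine (comb_bound y Q l hl S hS (w * s * K ^ (D - 1) * θ) (by positivity) fun j hj => (h j hj).trans ?_).trans ?_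
      · have : dep j ≤ D - 1 := by
          have := hQ j hj
          omega
        have e1 : K ^ dep j ≤ K ^ (D - 1) := pow_le_pow_right₀ hK1 this
        have : (0 : ℝ) ≤ w * s := by positivity
        gcongr
      · calc (r : ℝ) * (w * s * K ^ (D - 1) * θ) ≤ s * (w * s * K ^ (D - 1) * θ) :=
              mul_le_mul_of_nonneg_right hrs (by positivity)
          _ = K ^ (D - 1) * K * θ := by
              rw [hK]
              ring
          _ = K ^ D * θ := by
              rw [← pow_succ, Nat.sub_add_cancel hD]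
  -- gates
  have gate : ∀ n j, dep j = n → ∀ S : Finset (I ⊕ J), T (2 * (dep j + 1)) ≤ S.card →
      mu S (cmp (y j) S) ≤ w * s * K ^ dep j * θ := by
    intro n
    induction n using Nat.strong_induction_on with
    | _ n ih =>
      intro j hj S hS
      have hjΔ := hdep j
      have hKj : 1 ≤ K ^ dep j := one_le_pow₀ hK1
      have h1 := prod_bound (univ : Finset (Fin (m j))) (G j) (K ^ dep j) θ hKj hθ hθ1 (T (2 * dep j))
        (T (2 * dep j + 1)) (T (2 * (dep j + 1))) (hT1 _) (hT1 _) (hT1 _) (hgood _ (by omega))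
        (hgood (2 * dep j + 1) (by omega)) (by
          intro i _ S' hS'
          refine line _ _ (hG j i) (dep j) S' ?_ (fun j' h => h) ?_
          · have := hmono (Nat.zero_le (2 * dep j))
            omega
          · intro j' hj'
            refine ih (dep j') (by omega) j' rfl S' (le_trans (hmono ?_) hS')
            omega) S hS
      rw [← hy j] at h1
      refine h1.trans ?_
      rw [card_univ, Fintype.card_fin]
      calc 2 ^ Fintype.card (I ⊕ J) * (2 ^ (Fintype.card (I ⊕ J) ^ 2) * (((m j : ℕ) + 1) * 2 ^ (Fintype.card (I ⊕ J) ^ 2) * K ^ dep j) * θ)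
          = w * (((m j : ℕ) : ℝ) + 1) * K ^ dep j * θ := by rw [hw]; ring
        _ ≤ w * s * K ^ dep j * θ := by
            have := hms j
            gcongr
  have hfin := line (fun _ => True) P hPs' Δ S hS2 (fun j _ => hdep j) (fun j _ => gate _ j rfl S (le_trans (hmono (by
    have := hdep j
    omega)) hS))
  refine hfin.trans ?_
  have : (0 : ℝ) ≤ K ^ Δ := by positivity
  calc K ^ Δ * θ = K ^ Δ * 1 * θ := by ring
    _ ≤ K ^ Δ * s * θ := by gcongr

end CDep
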