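import Pool.Agent.Helper74.CD.Rk

/-!
# Set-multilinear parts
-/

set_option autoImplicit false
set_option linter.unusedSectionVars false

namespace CDep
open Finset MvPolynomial

section sq

variable {B : Type} [DecidableEq B]

theorem sq_apply (S : Finset B) (b : B) : sq S b = if b ∈ S then 1 else 0 := by
  unfold sq
  rw [Finsupp.finsetSum_apply]
  simp only [Finsupp.single_apply]
  rw [Finset.sum_ite_eq' S b (fun _ => 1)]

theorem sq_support (S : Finset B) : (sq S).support = S := by
  ext b
  rw [Finsupp.mem_support_iff, sq_apply]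
  split_ifs with h <;> simp [h]

theorem sq_empty : sq (∅ : Finset B) = 0 := by
  unfold sq
  rw [Finset.sum_empty]

theorem sq_eq_of_le (S : Finset B) (u : B →₀ ℕ) (h : ∀ b, u b ≤ sq S b) : u = sq u.support := by
  ext b
  rw [sq_apply]
  have h1 := h b
  rw [sq_apply] at h1
  by_cases hb : u b = 0
  · rw [hb, if_neg]
    rw [Finsupp.mem_support_iff]
    exact not_not_intro hb
  · rw [if_pos (Finsupp.mem_support_iff.2 hb)]
    split_ifs at h1 <;> omega

theorem sq_split (S : Finset B) (u v : B →₀ ℕ) (h : u + v = sq S) :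
    u.support ⊆ S ∧ u = sq u.support ∧ v = sq (S \ u.support) := by
  have h0 : ∀ b, u b + v b = if b ∈ S then 1 else 0 := by
    intro b
    have h1 := DFunLike.congr_fun h b
    rwa [Finsupp.coe_add, Pi.add_apply, sq_apply] at h1
  have hsub : u.support ⊆ S := by
    intro b hb
    have h1 := h0 b
    have h2 := Finsupp.mem_support_iff.1 hb
    by_contra hcon
    rw [if_neg hcon] at h1
    omega
  refine ⟨hsub, ?_, ?_⟩
  · refine sq_eq_of_le S u fun b => ?_
    have h1 := h0 b
    rw [sq_apply]
    omega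
  · ext b
    have h1 := h0 b
    rw [sq_apply]
    by_cases h3 : b ∈ u.support
    · have h5 := Finsupp.mem_support_iff.1 h3
      rw [if_pos (hsub h3)] at h1
      have h6 : b ∉ S \ u.support := fun h => (mem_sdiff.1 h).2 h3
      rw [if_neg h6]
      omega
    · have h5 : u b = 0 := by
        by_contra hcon
        exact h3 (Finsupp.mem_support_iff.2 hcon)
      rw [h5, zero_add] at h1
      rw [h1]
      by_cases h4 : b ∈ S
      · rw [if_pos h4, if_pos (mem_sdiff.2 ⟨h4, h3⟩)]
      · rw [if_neg h4, if_neg (fun h => h4 (mem_sdiff.1 h).1)]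

theorem sq_add (S T : Finset B) (hT : T ⊆ S) : sq T + sq (S \ T) = sq S := by
  ext b
  rw [Finsupp.coe_add, Pi.add_apply, sq_apply, sq_apply, sq_apply]
  by_cases h1 : b ∈ T
  · rw [if_pos h1, if_neg (fun h => (mem_sdiff.1 h).2 h1), if_pos (hT h1)]
  · rw [if_neg h1]
    by_cases h2 : b ∈ S
    · rw [if_pos (mem_sdiff.2 ⟨h2, h1⟩), if_pos h2]
    · rw [if_neg (fun h => h2 (mem_sdiff.1 h).1), if_neg h2]

theorem sum_antidiagonal_sq {M : Type*} [AddCommMonoid M] (S : Finset B) (f : (B →₀ ℕ) → (B →₀ ℕ) → M) :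
    ∑ p ∈ antidiagonal (sq S), f p.1 p.2 = ∑ T ∈ S.powerset, f (sq T) (sq (S \ T)) := by
  refine Finset.sum_nbij' (fun p => p.1.support) (fun T => (sq T, sq (S \ T))) ?_ ?_ ?_ ?_ ?_
  · rintro ⟨u, v⟩ h
    exact mem_powerset.2 (sq_split S u v (HasAntidiagonal.mem_antidiagonal.1 h)).1
  · intro T hT
    exact HasAntidiagonal.mem_antidiagonal.2 (sq_add S T (mem_powerset.1 hT))
  · rintro ⟨u, v⟩ h
    obtain ⟨_, h1, h2⟩ := sq_split S u v (HasAntidiagonal.mem_antidiagonal.1 h)
    exact Prod.ext h1.symm h2.symm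
  · intro T hT
    exact sq_support T
  · rintro ⟨u, v⟩ h
    obtain ⟨_, h1, h2⟩ := sq_split S u v (HasAntidiagonal.mem_antidiagonal.1 h)
    show f u v = f (sq u.support) (sq (S \ u.support))
    rw [← h2, ← h1]

end sq

section cmp

variable {I J U V F : Type} [Fintype I] [DecidableEq I] [Fintype J] [DecidableEq J] [Fintype U] [DecidableEq U]
  [Fintype V] [DecidableEq V] [Field F]

theorem coeff_sq_mul {B : Type} [DecidableEq B] (p q : MvPolynomial B F) (S : Finset B) :
    coeff (sq S) (p * q) = ∑ T ∈ S.powerset, coeff (sq T) p * coeff (sq (S \ T)) q := by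
  rw [coeff_mul]
  exact sum_antidiagonal_sq S (fun u v => coeff u p * coeff v q)

theorem cmp_mul (g h : MvPolynomial ((I × U) ⊕ (J × V)) F) (S : Finset (I ⊕ J)) :
    cmp (g * h) S = ∑ T ∈ S.powerset, hd (cmp g T) (cmp h (S \ T)) := by
  ext ρ γ
  rw [Matrix.sum_apply]
  simp only [cmp, Matrix.of_apply, hd_apply]
  rw [map_mul, coeff_sq_mul]

theorem cmp_add (g h : MvPolynomial ((I × U) ⊕ (J × V)) F) (S : Finset (I ⊕ J)) :
    cmp (g + h) S = cmp g S + cmp h S := by
  ext ρ γ
  simp only [cmp, Matrix.of_apply, Matrix.add_apply, map_add, coeff_add]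

theorem cmp_smul (c : F) (g : MvPolynomial ((I × U) ⊕ (J × V)) F) (S : Finset (I ⊕ J)) :
    cmp (c • g) S = c • cmp g S := by
  ext ρ γ
  simp only [cmp, Matrix.of_apply, Matrix.smul_apply, map_smul, coeff_smul]

theorem cmp_zero (S : Finset (I ⊕ J)) : cmp (0 : MvPolynomial ((I × U) ⊕ (J × V)) F) S = 0 := by
  ext ρ γ
  simp only [cmp, Matrix.of_apply, map_zero, coeff_zero, Matrix.zero_apply]

theorem cmp_sum {ι : Type*} (t : Finset ι) (g : ι → MvPolynomial ((I × U) ⊕ (J × V)) F) (S : Finset (I ⊕ J)) :
    cmp (∑ i ∈ t, g i) S = ∑ i ∈ t, cmp (g i) S := by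
  classical
  induction t using Finset.induction_on with
  | empty => rw [Finset.sum_empty, Finset.sum_empty, cmp_zero]
  | insert a t ha ih => rw [Finset.sum_insert ha, Finset.sum_insert ha, cmp_add, ih]

theorem cmp_C (c : F) (S : Finset (I ⊕ J)) (hS : S.Nonempty) :
    cmp (C c : MvPolynomial ((I × U) ⊕ (J × V)) F) S = 0 := by
  ext ρ γ
  simp only [cmp, Matrix.of_apply, Matrix.zero_apply]
  rw [← algebraMap_eq, AlgHom.commutes, algebraMap_eq, coeff_C, if_neg]
  intro h
  have h1 := congrArg Finsupp.support h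
  rw [sq_support, Finsupp.support_zero] at h1
  exact hS.ne_empty h1.symm

theorem cmp_X (x : (I × U) ⊕ (J × V)) (S : Finset (I ⊕ J)) (hS : 2 ≤ S.card) :
    cmp (X x : MvPolynomial ((I × U) ⊕ (J × V)) F) S = 0 := by
  ext ρ γ
  simp only [cmp, Matrix.of_apply, Matrix.zero_apply, ph, aeval_X]
  have key : ∀ b : I ⊕ J, coeff (sq S) (X b : MvPolynomial (I ⊕ J) F) = 0 := by
    intro b
    rw [coeff_X, if_neg]
    intro h
    have h1 := congrArg Finsupp.support h
    rw [sq_support, Finsupp.support_single _ one_ne_zero] at h1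
    rw [← h1, card_singleton] at hS
    omega
  rcases x with x | x
  · simp only [Sum.elim_inl]
    split_ifs
    · exact key _
    · rw [coeff_zero]
  · simp only [Sum.elim_inr]
    split_ifs
    · exact key _
    · rw [coeff_zero]

theorem cmp_empty (g : MvPolynomial ((I × U) ⊕ (J × V)) F) (ρ : I → U) (γ : J → V) :
    cmp g ∅ ρ γ = constantCoeff g := by
  simp only [cmp, Matrix.of_apply]
  rw [sq_empty, ← constantCoeff_eq]
  have h : (constantCoeff : MvPolynomial (I ⊕ J) F →+* F).comp (ph ρ γ : MvPolynomial ((I × U) ⊕ (J × V)) F →ₐ[F] _).toRingHom =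
      constantCoeff := by
    ext x
    · simp [ph]
    · rcases x with x | x
      · simp only [ph, AlgHom.toRingHom_eq_coe, RingHom.coe_comp, RingHom.coe_coe, Function.comp_apply, aeval_X,
          Sum.elim_inl, constantCoeff_X]
        split_ifs <;> simp
      · simp only [ph, AlgHom.toRingHom_eq_coe, RingHom.coe_comp, RingHom.coe_coe, Function.comp_apply, aeval_X,
          Sum.elim_inr, constantCoeff_X]
        split_ifs <;> simp
  exact RingHom.congr_fun h g

theorem cmp_prod_zero {ι : Type*} (Z : Finset ι) (g : ι → MvPolynomial ((I × U) ⊕ (J × V)) F)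
    (hg : ∀ i ∈ Z, constantCoeff (g i) = 0) (h : MvPolynomial ((I × U) ⊕ (J × V)) F) (S : Finset (I ⊕ J))
    (hS : S.card < Z.card) : cmp ((∏ i ∈ Z, g i) * h) S = 0 := by
  classical
  induction Z using Finset.induction_on generalizing S with
  | empty => simp at hS
  | insert a Z ha ih =>
    rw [Finset.prod_insert ha, mul_assoc, cmp_mul]
    refine Finset.sum_eq_zero fun T hT => ?_
    rw [mem_powerset] at hT
    rw [card_insert_of_notMem ha] at hS
    by_cases hT0 : T = ∅
    · subst hT0
      ext ρ γ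
      rw [hd_apply, cmp_empty, hg a (mem_insert_self _ _), zero_mul]
      rfl
    · have h1 : (S \ T).card < Z.card := by
        rw [card_sdiff_of_subset hT]
        have := card_pos.2 (nonempty_iff_ne_empty.2 hT0)
        have := card_le_card hT
        omega
      rw [ih (fun i hi => hg i (mem_insert_of_mem hi)) _ h1]
      ext ρ γ
      rw [hd_apply, Matrix.zero_apply, mul_zero]

/-- restriction to the blocks of `S` -/
theorem dep_cmp (g : MvPolynomial ((I × U) ⊕ (J × V)) F) (S : Finset (I ⊕ J)) : Dep S (cmp g S) := by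
  intro ρ ρ' γ γ' h1 h2
  -- keep only the variables of the blocks in `S`
  simp only [cmp, Matrix.of_apply]
  let w : MvPolynomial (I ⊕ J) F →ₐ[F] MvPolynomial (I ⊕ J) F := aeval fun b => if b ∈ S then X b else 0
  have hw : ∀ p : MvPolynomial (I ⊕ J) F, coeff (sq S) (w p) = coeff (sq S) p := by
    intro p
    induction p using MvPolynomial.induction_on' with
    | monomial u a =>
      have h3 : w (monomial u a) = if u.support ⊆ S then monomial u a else 0 := by
        simp only [w]
        rw [aeval_monomial, algebraMap_eq]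
        split_ifs with hu
        · rw [monomial_eq]
          congr 1
          refine Finsupp.prod_congr fun b hb => ?_
          rw [if_pos (hu hb)]
        · rw [Finset.not_subset] at hu
          obtain ⟨b, hb, hbS⟩ := hu
          have : (u.prod fun b k => (if b ∈ S then X b else 0 : MvPolynomial (I ⊕ J) F) ^ k) = 0 := by
            refine Finset.prod_eq_zero hb ?_
            dsimp only
            rw [if_neg hbS, zero_pow (Finsupp.mem_support_iff.1 hb)]
          rw [this, mul_zero]
      rw [h3]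
      split_ifs with hu
      · rfl
      · rw [coeff_zero, coeff_monomial, if_neg]
        intro he
        apply hu
        rw [he, sq_support]
    | add p q hp hq => rw [map_add, coeff_add, coeff_add, hp, hq]
  rw [← hw (ph ρ γ g), ← hw (ph ρ' γ' g)]
  congr 1
  have h4 : w.comp (ph ρ γ : MvPolynomial ((I × U) ⊕ (J × V)) F →ₐ[F] _) = w.comp (ph ρ' γ') := by
    apply MvPolynomial.algHom_ext
    intro x
    rcases x with ⟨i, u⟩ | ⟨j, v⟩
    · simp only [AlgHom.comp_apply, ph, aeval_X, Sum.elim_inl]
      by_cases hi : Sum.inl i ∈ S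
      · rw [h1 i hi]
      · have e1 : w (X (Sum.inl i)) = 0 := by
          simp only [w, aeval_X]
          rw [if_neg hi]
        split_ifs <;> simp [e1]
    · simp only [AlgHom.comp_apply, ph, aeval_X, Sum.elim_inr]
      by_cases hj : Sum.inr j ∈ S
      · rw [h2 j hj]
      · have e1 : w (X (Sum.inr j)) = 0 := by
          simp only [w, aeval_X]
          rw [if_neg hj]
        split_ifs <;> simp [e1]
  exact DFunLike.congr_fun h4 g

end cmp

end CDep
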