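import Mathlib

/-!
# Constant depth circuits and clique tests: definitions
-/

set_option autoImplicit false

namespace CDep
open Finset MvPolynomial

section blocks

variable {I J U V F : Type} [Fintype I] [DecidableEq I] [Fintype J] [DecidableEq J] [Fintype U] [DecidableEq U]
  [Fintype V] [DecidableEq V] [Field F]

/-- In the block `i` keep the variable with the value `ρ i`, in the block `j` the variable with the value `γ j`. -/
noncomputable def ph (ρ : I → U) (γ : J → V) : MvPolynomial ((I × U) ⊕ (J × V)) F →ₐ[F] MvPolynomial (I ⊕ J) F :=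
  aeval (Sum.elim (fun x => if x.2 = ρ x.1 then X (Sum.inl x.1) else 0)
    (fun x => if x.2 = γ x.1 then X (Sum.inr x.1) else 0))

/-- the squarefree monomial -/
noncomputable def sq {B : Type} (S : Finset B) : B →₀ ℕ := ∑ b ∈ S, Finsupp.single b 1

/-- The set-multilinear part of type `S`, as a matrix. -/
noncomputable def cmp (g : MvPolynomial ((I × U) ⊕ (J × V)) F) (S : Finset (I ⊕ J)) : Matrix (I → U) (J → V) F :=
  Matrix.of fun ρ γ => coeff (sq S) (ph ρ γ g)

/-- The normalisation. -/
noncomputable def NN (U V : Type) [Fintype U] [Fintype V] (S : Finset (I ⊕ J)) : ℝ :=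
  Real.sqrt ((Fintype.card U : ℝ) ^ S.toLeft.card * (Fintype.card V : ℝ) ^ S.toRight.card)

/-- The relative rank. -/
noncomputable def mu (S : Finset (I ⊕ J)) (A : Matrix (I → U) (J → V) F) : ℝ := A.rank / NN U V S

/-- The bound for the relative rank. -/
noncomputable def om (U V : Type) [Fintype U] [Fintype V] (S : Finset (I ⊕ J)) : ℝ :=
  min ((Fintype.card U : ℝ) ^ S.toLeft.card) ((Fintype.card V : ℝ) ^ S.toRight.card) / NN U V S

/-- The condition for two consecutive thresholds. -/
def Good (I J U V : Type) [Fintype U] [Fintype V] (θ : ℝ) (T T' : ℕ) : Prop :=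
  ∀ S : Finset (I ⊕ J), S.Nonempty → S.card < T → om U V S ≤ θ ^ ((S.card : ℝ) / T')

end blocks

section circuits

variable {σ F : Type} [Field F]

/-- `P` is computed by an arithmetic circuit of product-depth `Δ` and size `s`: product gates `y j` of unbounded fan-in
`m j`, whose factors are linear combinations of `1`, of the variables and of gates of smaller depth; `P` is such a linear
combination of all gates. The size is the number of product gates plus the sum of their fan-ins. -/
def Comp (Δ s : ℕ) (P : MvPolynomial σ F) : Prop :=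
  ∃ (r : ℕ) (y : Fin r → MvPolynomial σ F) (dep m : Fin r → ℕ) (G : (j : Fin r) → Fin (m j) → MvPolynomial σ F),
    (∀ j, dep j < Δ) ∧ (∀ j, y j = ∏ i, G j i) ∧
    (∀ j i, G j i ∈ Submodule.span F ({1} ∪ Set.range X ∪ {g | ∃ j', dep j' < dep j ∧ g = y j'})) ∧
    P ∈ Submodule.span F ({1} ∪ Set.range X ∪ Set.range y) ∧ ∑ j, (m j + 1) ≤ s

end circuits

section graphs

variable {Ω Y F : Type} [Field F]

/-- The polynomial with the variables of the non-edges of `G` put to `0`. -/
noncomputable def restr (G : SimpleGraph Ω) : MvPolynomial (Sym2 Ω ⊕ Y) F →ₐ[F] MvPolynomial (Sym2 Ω ⊕ Y) F :=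
  open Classical in aeval (Sum.elim (fun e => if e ∈ G.edgeSet then X (Sum.inl e) else 0) fun y => X (Sum.inr y))

/-- The polynomial is nonzero on a graph iff the graph has a `k`-clique. -/
def Detects (k : ℕ) (f : MvPolynomial (Sym2 Ω ⊕ Y) F) : Prop :=
  ∀ G : SimpleGraph Ω, restr G f ≠ 0 ↔ ∃ C : Finset Ω, G.IsNClique k C

/-- multilinear in the edge variables -/
def Multilin (f : MvPolynomial (Sym2 Ω ⊕ Y) F) : Prop := ∀ s, coeff s f ≠ 0 → ∀ e, s (Sum.inl e) ≤ 1

/-- the values on the right side determined by those on the left side -/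
def gam {I J Q Q' : Type} (π : J × Q' → I × Q) (ρ : I → (Q → Bool)) (j : J) (q' : Q') : Bool :=
  ρ (π (j, q')).1 (π (j, q')).2

end graphs

end CDep
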