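import Pool.Agent.Helper74.CD.Main
import Pool.Agent.Helper20.CDG.Gadget

/-!
# The main theorem on constant depth circuits for cliques
-/

set_option autoImplicit false

namespace CDep
open Finset MvPolynomial

theorem gadgetStat : GadgetStat := fun π u k hk hn f hm hf => gadget π u k hk hn f hm hf

theorem final (Δ : ℕ) : ∃ k₀ : ℕ, ∀ (F : Type) [Field F] (Y : Type)
    (n k s : ℕ) (f : MvPolynomial (Sym2 (Fin n) ⊕ Y) F), k₀ ≤ k → k + k₀ ≤ n → Multilin f →
    Detects k f → Comp Δ s f →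
    ((n - k : ℕ) : ℝ) ^ ((min (k : ℝ) (Real.log ((n - k : ℕ) : ℝ))) ^ (1 / (4 : ℝ) ^ (Δ + 1))) ≤ s :=
  main_of_gadget gadgetStat Δ

end CDep
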