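import Pool.Agent.Helper74.CD.Cmp

/-!
# The product lemma
-/

set_option autoImplicit false
set_option linter.unusedSectionVars false

namespace CDep
open Finset MvPolynomial

section series

variable {B F : Type} [DecidableEq B] [Field F]

theorem ps_coeff_mul (p q : MvPowerSeries B F) (S : Finset B) :
    MvPowerSeries.coeff (sq S) (p * q) =
      ∑ T ∈ S.powerset, MvPowerSeries.coeff (sq T) p * MvPowerSeries.coeff (sq (S \ T)) q := by
  rw [MvPowerSeries.coeff_mul]
  exact sum_antidiagonal_sq S (fun u v => MvPowerSeries.coeff u p * MvPowerSeries.coeff v q)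

/-- the derivation `X_a ∂_a` -/
noncomputable def th (a : B) (p : MvPowerSeries B F) : MvPowerSeries B F := fun n => (n a : F) * MvPowerSeries.coeff n p

theorem coeff_th (a : B) (p : MvPowerSeries B F) (n : B →₀ ℕ) :
    MvPowerSeries.coeff n (th a p) = (n a : F) * MvPowerSeries.coeff n p := rfl

theorem th_mul (a : B) (p q : MvPowerSeries B F) : th a (p * q) = th a p * q + p * th a q := by
  ext n
  rw [coeff_th, map_add, MvPowerSeries.coeff_mul, MvPowerSeries.coeff_mul, MvPowerSeries.coeff_mul, Finset.mul_sum,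
    ← Finset.sum_add_distrib]
  refine Finset.sum_congr rfl fun x hx => ?_
  rw [coeff_th, coeff_th]
  have h : x.1 + x.2 = n := HasAntidiagonal.mem_antidiagonal.1 hx
  have h1 : (n a : F) = (x.1 a : F) + (x.2 a : F) := by
    rw [← h, Finsupp.coe_add, Pi.add_apply, Nat.cast_add]
  rw [h1]
  ring

theorem th_one (a : B) : th a (1 : MvPowerSeries B F) = 0 := by
  ext n
  rw [coeff_th, MvPowerSeries.coeff_one, map_zero]
  split_ifs with h
  · rw [h]
    simp
  · rw [mul_zero]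

theorem th_prod {ι : Type*} (t : Finset ι) (a : B) (G : ι → MvPowerSeries B F)
    (hG : ∀ i ∈ t, MvPowerSeries.constantCoeff (G i) ≠ 0) :
    th a (∏ i ∈ t, G i) = (∑ i ∈ t, th a (G i) * (G i)⁻¹) * ∏ i ∈ t, G i := by
  classical
  induction t using Finset.induction_on with
  | empty => rw [Finset.prod_empty, Finset.sum_empty, th_one, zero_mul]
  | insert b t hb ih =>
    rw [Finset.prod_insert hb, Finset.sum_insert hb, th_mul, ih fun i hi => hG i (mem_insert_of_mem hi)]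
    have h1 := MvPowerSeries.inv_mul_cancel (G b) (hG b (mem_insert_self _ _))
    calc th a (G b) * ∏ i ∈ t, G i + G b * ((∑ i ∈ t, th a (G i) * (G i)⁻¹) * ∏ i ∈ t, G i)
        = th a (G b) * ((G b)⁻¹ * G b) * ∏ i ∈ t, G i + G b * ((∑ i ∈ t, th a (G i) * (G i)⁻¹) * ∏ i ∈ t, G i) := by
          rw [h1, mul_one]
      _ = _ := by ring

end series

section matrices

variable {I J U V F : Type} [Fintype I] [DecidableEq I] [Fintype J] [DecidableEq J] [Fintype U] [DecidableEq U]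
  [Fintype V] [DecidableEq V] [Field F]

/-- the series -/
noncomputable def se (g : MvPolynomial ((I × U) ⊕ (J × V)) F) (ρ : I → U) (γ : J → V) : MvPowerSeries (I ⊕ J) F :=
  ((ph ρ γ g : MvPolynomial (I ⊕ J) F) : MvPowerSeries (I ⊕ J) F)

theorem coeff_se (g : MvPolynomial ((I × U) ⊕ (J × V)) F) (ρ : I → U) (γ : J → V) (S : Finset (I ⊕ J)) :
    MvPowerSeries.coeff (sq S) (se g ρ γ) = cmp g S ρ γ := by
  unfold se
  rw [MvPolynomial.coeff_coe]
  rfl

theorem constantCoeff_se (g : MvPolynomial ((I × U) ⊕ (J × V)) F) (ρ : I → U) (γ : J → V) :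
    MvPowerSeries.constantCoeff (se g ρ γ) = constantCoeff g := by
  rw [← cmp_empty g ρ γ, ← coeff_se, sq_empty]
  rfl

/-- parts of the inverse -/
noncomputable def cinv (g : MvPolynomial ((I × U) ⊕ (J × V)) F) (S : Finset (I ⊕ J)) : Matrix (I → U) (J → V) F :=
  Matrix.of fun ρ γ => MvPowerSeries.coeff (sq S) (se g ρ γ)⁻¹

theorem cinv_rec (g : MvPolynomial ((I × U) ⊕ (J × V)) F) (hg : constantCoeff g ≠ 0) (S : Finset (I ⊕ J))
    (hS : S.Nonempty) :
    cinv g S = (-(constantCoeff g)⁻¹) • ∑ T ∈ S.powerset.erase ∅, hd (cmp g T) (cinv g (S \ T)) := by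
  ext ρ γ
  have h1 := MvPowerSeries.mul_inv_cancel (se g ρ γ) (by rw [constantCoeff_se]; exact hg)
  have h2 := congrArg (MvPowerSeries.coeff (sq S)) h1
  rw [ps_coeff_mul, MvPowerSeries.coeff_one, if_neg] at h2
  · have h3 : (∅ : Finset (I ⊕ J)) ∈ S.powerset := empty_mem_powerset S
    rw [← Finset.add_sum_erase _ _ h3] at h2
    rw [Matrix.smul_apply, Matrix.sum_apply]
    simp only [hd_apply, smul_eq_mul]
    simp only [coeff_se] at h2
    rw [cmp_empty, sdiff_empty] at h2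
    have h4 : ∀ T, cinv g (S \ T) ρ γ = MvPowerSeries.coeff (sq (S \ T)) (se g ρ γ)⁻¹ := fun _ => rfl
    have h5 : cinv g S ρ γ = MvPowerSeries.coeff (sq S) (se g ρ γ)⁻¹ := rfl
    simp only [h4]
    rw [h5]
    have h6 := eq_neg_of_add_eq_zero_left h2
    rw [neg_mul, ← mul_neg, ← h6, inv_mul_cancel_left₀ hg]
  · intro h
    have h3 := congrArg Finsupp.support h
    rw [sq_support, Finsupp.support_zero] at h3
    exact hS.ne_empty h3

theorem cinv_empty (g : MvPolynomial ((I × U) ⊕ (J × V)) F) (ρ : I → U) (γ : J → V) :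
    cinv g ∅ ρ γ = (constantCoeff g)⁻¹ := by
  have h : cinv g ∅ ρ γ = MvPowerSeries.constantCoeff (se g ρ γ)⁻¹ := by
    unfold cinv
    rw [Matrix.of_apply, sq_empty]
    rfl
  rw [h, MvPowerSeries.constantCoeff_inv, constantCoeff_se]

theorem Dep.mono {S T : Finset (I ⊕ J)} (h : S ⊆ T) {A : Matrix (I → U) (J → V) F} (hA : Dep S A) : Dep T A :=
  fun ρ ρ' γ γ' h1 h2 => hA ρ ρ' γ γ' (fun i hi => h1 i (h hi)) (fun j hj => h2 j (h hj))

theorem Dep.hd {S : Finset (I ⊕ J)} {A B : Matrix (I → U) (J → V) F} (hA : Dep S A) (hB : Dep S B) :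
    Dep S (hd A B) := by
  intro ρ ρ' γ γ' h1 h2
  rw [hd_apply, hd_apply, hA ρ ρ' γ γ' h1 h2, hB ρ ρ' γ γ' h1 h2]

theorem Dep.sum {ι : Type*} (t : Finset ι) {S : Finset (I ⊕ J)} {A : ι → Matrix (I → U) (J → V) F}
    (hA : ∀ i ∈ t, Dep S (A i)) : Dep S (∑ i ∈ t, A i) := by
  intro ρ ρ' γ γ' h1 h2
  rw [Matrix.sum_apply, Matrix.sum_apply]
  exact Finset.sum_congr rfl fun i hi => hA i hi ρ ρ' γ γ' h1 h2

theorem Dep.smul {S : Finset (I ⊕ J)} {A : Matrix (I → U) (J → V) F} (c : F) (hA : Dep S A) : Dep S (c • A) := by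
  intro ρ ρ' γ γ' h1 h2
  rw [Matrix.smul_apply, Matrix.smul_apply, hA ρ ρ' γ γ' h1 h2]

theorem dep_cinv (g : MvPolynomial ((I × U) ⊕ (J × V)) F) (hg : constantCoeff g ≠ 0) (S : Finset (I ⊕ J)) :
    Dep S (cinv g S) := by
  induction S using Finset.strongInduction with
  | H S ih =>
    rcases S.eq_empty_or_nonempty with rfl | hS
    · intro ρ ρ' γ γ' _ _
      rw [cinv_empty, cinv_empty]
    · rw [cinv_rec g hg S hS]
      refine Dep.smul _ (Dep.sum _ fun T hT => ?_)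
      obtain ⟨hT0, hTS⟩ := mem_erase.1 hT
      rw [mem_powerset] at hTS
      refine Dep.hd ((dep_cmp g T).mono hTS) ((ih (S \ T) ?_).mono sdiff_subset)
      exact Finset.sdiff_ssubset hTS (nonempty_iff_ne_empty.2 hT0)

/-- parts of the logarithmic derivative -/
noncomputable def lam (g : MvPolynomial ((I × U) ⊕ (J × V)) F) (a : I ⊕ J) (D : Finset (I ⊕ J)) :
    Matrix (I → U) (J → V) F :=
  ∑ E ∈ D.powerset, if a ∈ E then hd (cmp g E) (cinv g (D \ E)) else 0

theorem coeff_lam (g : MvPolynomial ((I × U) ⊕ (J × V)) F) (a : I ⊕ J) (D : Finset (I ⊕ J)) (ρ : I → U) (γ : J → V) :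
    MvPowerSeries.coeff (sq D) (th a (se g ρ γ) * (se g ρ γ)⁻¹) = lam g a D ρ γ := by
  rw [ps_coeff_mul]
  unfold lam
  rw [Matrix.sum_apply]
  refine Finset.sum_congr rfl fun E _ => ?_
  rw [coeff_th, coeff_se, sq_apply]
  split_ifs with h
  · rw [hd_apply, Nat.cast_one, one_mul]
    rfl
  · rw [Nat.cast_zero, zero_mul, zero_mul, Matrix.zero_apply]

theorem lam_eq_zero (g : MvPolynomial ((I × U) ⊕ (J × V)) F) (a : I ⊕ J) (D : Finset (I ⊕ J)) (ha : a ∉ D) :
    lam g a D = 0 := by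
  unfold lam
  refine Finset.sum_eq_zero fun E hE => ?_
  rw [if_neg]
  exact fun h => ha (mem_powerset.1 hE h)

theorem dep_lam (g : MvPolynomial ((I × U) ⊕ (J × V)) F) (hg : constantCoeff g ≠ 0) (a : I ⊕ J)
    (D : Finset (I ⊕ J)) : Dep D (lam g a D) := by
  unfold lam
  refine Dep.sum _ fun E hE => ?_
  rw [mem_powerset] at hE
  split_ifs with h
  · exact Dep.hd ((dep_cmp g E).mono hE) ((dep_cinv g hg (D \ E)).mono sdiff_subset)
  · intro _ _ _ _ _ _
    rfl

theorem cmp_prod_rec {ι : Type*} (t : Finset ι) (g : ι → MvPolynomial ((I × U) ⊕ (J × V)) F)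
    (hg : ∀ i ∈ t, constantCoeff (g i) ≠ 0) (S : Finset (I ⊕ J)) (a : I ⊕ J) (ha : a ∈ S) :
    cmp (∏ i ∈ t, g i) S =
      ∑ D ∈ S.powerset.erase ∅, hd (∑ i ∈ t, lam (g i) a D) (cmp (∏ i ∈ t, g i) (S \ D)) := by
  have h0 : ∑ D ∈ S.powerset.erase ∅, hd (∑ i ∈ t, lam (g i) a D) (cmp (∏ i ∈ t, g i) (S \ D)) =
      ∑ D ∈ S.powerset, hd (∑ i ∈ t, lam (g i) a D) (cmp (∏ i ∈ t, g i) (S \ D)) := by
    rw [← Finset.add_sum_erase _ _ (empty_mem_powerset S)]
    have h1 : ∑ i ∈ t, lam (g i) a ∅ = 0 :=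
      Finset.sum_eq_zero fun i _ => lam_eq_zero _ _ _ (notMem_empty a)
    rw [h1]
    have h2 : hd (0 : Matrix (I → U) (J → V) F) (cmp (∏ i ∈ t, g i) (S \ ∅)) = 0 := by
      ext ρ γ
      rw [hd_apply, Matrix.zero_apply, zero_mul]
    rw [h2, zero_add]
  rw [h0]
  ext ρ γ
  have hse : se (∏ i ∈ t, g i) ρ γ = ∏ i ∈ t, se (g i) ρ γ := by
    unfold se
    rw [map_prod, ← MvPolynomial.coeToMvPowerSeries.ringHom_apply, map_prod]
    rfl
  have h1 := th_prod t a (fun i => se (g i) ρ γ) fun i hi => by rw [constantCoeff_se]; exact hg i hi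
  rw [← hse] at h1
  have h2 := congrArg (MvPowerSeries.coeff (sq S)) h1
  rw [coeff_th, coeff_se, sq_apply, if_pos ha, Nat.cast_one, one_mul, ps_coeff_mul] at h2
  rw [h2, Matrix.sum_apply]
  refine Finset.sum_congr rfl fun D _ => ?_
  rw [hd_apply, coeff_se, map_sum, Matrix.sum_apply]
  congr 1
  exact Finset.sum_congr rfl fun i _ => coeff_lam _ _ _ _ _

end matrices

end CDep
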