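import Pool.Agent.Helper63.CDN.Num

/-!
# The numbers for all `k` (adapted from `Pool.Agent.Helper63.CDN.Num`)
-/

set_option autoImplicit false

namespace CDep
open Finset MvPolynomial

/-- **The explicit inequality**, with free parameters. -/
theorem coreF (Δ n k s β a k' : ℕ) (hβ : 2 * Δ + 1 ≤ β) (ha : (16 * β) ^ (2 ^ (2 * Δ)) ≤ a) (hak : 16 * a ^ 2 ≤ k')
    (h2k : 2 ^ k' * 2 ^ k' ≤ n - k) (hk : 2 * a + 1 ≤ k)
    (H : ∀ (a b κ k' u : ℕ) (θ : ℝ) (T : ℕ → ℕ), 0 < θ → θ ≤ 1 → b * k' ≤ a * κ → k = a + b + 1 + u →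
      a * 2 ^ κ + b * 2 ^ k' + 1 + u ≤ n → T 0 = 2 → Monotone T → (∀ i, 1 ≤ T i) →
      (∀ i < 2 * Δ, Good (Fin a) (Fin b) (Fin κ → Bool) (Fin k' → Bool) θ (T i) (T (i + 1))) →
      T (2 * Δ) ≤ a + b → (2 : ℝ) ^ (((k' * b : ℕ) - (κ * a : ℕ) : ℝ) / 2) ≤
        (2 ^ (a + b) * (2 ^ ((a + b) ^ 2)) ^ 2 * (s : ℝ) ^ 2) ^ Δ * s * θ) :
    (2 : ℝ) ^ ((k' : ℝ) * β / 2) ≤ (s : ℝ) ^ (2 * Δ + 1) := by
  set κ := Nat.sqrt (k' ^ 2 / 2) with hκ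
  set b := a * κ / k' with hb
  have hβ0 : 0 < β := by omega
  have ha16 : 16 ≤ a := by
    refine le_trans ?_ ha
    calc 16 = 16 ^ 1 := (pow_one _).symm
      _ ≤ (16 * β) ^ 1 := Nat.pow_le_pow_left (by omega) 1
      _ ≤ (16 * β) ^ (2 ^ (2 * Δ)) := Nat.pow_le_pow_right (by omega) (Nat.one_le_pow _ _ (by norm_num))
  have hk'0 : 0 < k' := by nlinarith
  have h1 : 2 * κ ^ 2 ≤ k' ^ 2 := by
    have := Nat.sqrt_le' (k' ^ 2 / 2)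
    rw [← hκ] at this
    omega
  have h2 : k' ^ 2 < 2 * (κ + 1) ^ 2 := by
    have := Nat.lt_succ_sqrt' (k' ^ 2 / 2)
    rw [Nat.succ_eq_add_one, ← hκ] at this
    omega
  have hκk : κ ≤ k' := by nlinarith
  have hbk : b * k' ≤ a * κ := Nat.div_mul_le_self _ _
  have hba : b ≤ a := by
    rw [hb]
    calc a * κ / k' ≤ a * k' / k' := Nat.div_le_div_right (Nat.mul_le_mul_left _ hκk)
      _ = a := Nat.mul_div_cancel _ hk'0
  have hbk2 : a * κ < (b + 1) * k' := by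
    rw [hb, add_mul, one_mul]
    exact Nat.lt_div_mul_add hk'0
  clear_value b
  have hTa : ∀ i ≤ 2 * Δ, TT β i ≤ a := by
    intro i hi
    calc TT β i ≤ (16 * β) ^ (2 ^ i) := TT_le hβ0 i
      _ ≤ (16 * β) ^ (2 ^ (2 * Δ)) :=
          Nat.pow_le_pow_right (by omega) (Nat.pow_le_pow_right (by norm_num) hi)
      _ ≤ a := ha
  have hk2 : k' < 2 ^ k' := Nat.lt_two_pow_self
  have h4a : 4 * a ≤ 2 ^ k' := by nlinarith
  have h3 := H a b κ k' (k - a - b - 1) ((2 : ℝ) ^ (-((k' : ℝ) * β))) (TT β) (by positivity)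
    (Real.rpow_le_one_of_one_le_of_nonpos (by norm_num) (by
      have : (0 : ℝ) ≤ (k' : ℝ) * β := by positivity
      linarith)) hbk (by omega) (by
      have h5 : a * 2 ^ κ ≤ a * 2 ^ k' := Nat.mul_le_mul_left _ (Nat.pow_le_pow_right (by norm_num) hκk)
      have h6 : b * 2 ^ k' ≤ a * 2 ^ k' := Nat.mul_le_mul_right _ hba
      have h7 : 4 * (a * 2 ^ k') ≤ n - k := by
        calc 4 * (a * 2 ^ k') = (4 * a) * 2 ^ k' := by ring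
          _ ≤ 2 ^ k' * 2 ^ k' := Nat.mul_le_mul_right _ h4a
          _ ≤ n - k := h2k
      have h8 : 0 < n - k := lt_of_lt_of_le (by positivity) h2k
      omega) rfl (monotone_nat_of_le_succ (TT_mono hβ0)) (TT_pos hβ0) (by
      intro i hi
      refine good h1 h2 hβ0 ?_
      have h8 := hTa i hi.le
      calc 4 * TT β i ^ 2 ≤ 4 * a ^ 2 := Nat.mul_le_mul_left _ (Nat.pow_le_pow_left h8 2)
        _ ≤ k' := by nlinarith) ((hTa _ le_rfl).trans (Nat.le_add_right _ _))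
  -- the numbers
  have h2' : (0 : ℝ) < 2 := by norm_num
  have hab : (a + b) ^ 2 * 4 ≤ k' := by nlinarith
  have hab2 : a + b ≤ (a + b) ^ 2 := Nat.le_self_pow (by norm_num) _
  have h9 : (2 : ℝ) ^ (a + b) * (2 ^ ((a + b) ^ 2)) ^ 2 ≤ 2 ^ k' := by
    rw [← pow_mul, ← pow_add]
    exact pow_le_pow_right₀ (by norm_num) (by linarith)
  have h10 : (2 : ℝ) ^ (-((k' : ℝ) / 2)) ≤ (2 : ℝ) ^ (((k' * b : ℕ) - (κ * a : ℕ) : ℝ) / 2) := by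
    apply Real.rpow_le_rpow_of_exponent_le (by norm_num)
    have : ((κ * a : ℕ) : ℝ) ≤ ((k' * b : ℕ) : ℝ) + k' := by
      have h11 : κ * a ≤ k' * b + k' := by nlinarith
      exact_mod_cast h11
    linarith
  have h12 : (2 ^ (a + b) * (2 ^ ((a + b) ^ 2)) ^ 2 * (s : ℝ) ^ 2) ^ Δ * s * (2 : ℝ) ^ (-((k' : ℝ) * β)) ≤
      (2 : ℝ) ^ ((k' : ℝ) * Δ) * (s : ℝ) ^ (2 * Δ + 1) * (2 : ℝ) ^ (-((k' : ℝ) * β)) := by
    refine mul_le_mul_of_nonneg_right ?_ (by positivity)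
    calc (2 ^ (a + b) * (2 ^ ((a + b) ^ 2)) ^ 2 * (s : ℝ) ^ 2) ^ Δ * s
        ≤ (2 ^ k' * (s : ℝ) ^ 2) ^ Δ * s := by
          gcongr
      _ = (2 : ℝ) ^ ((k' : ℝ) * Δ) * (s : ℝ) ^ (2 * Δ + 1) := by
          rw [mul_pow, ← pow_mul, ← pow_mul, ← Real.rpow_natCast 2 (k' * Δ), pow_succ]
          push_cast
          ring
  have h13 := (h10.trans h3).trans h12
  -- divide
  have h14 : (2 : ℝ) ^ ((k' : ℝ) * β / 2) ≤ (2 : ℝ) ^ (-((k' : ℝ) / 2) - (k' : ℝ) * Δ + (k' : ℝ) * β) := by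
    apply Real.rpow_le_rpow_of_exponent_le (by norm_num)
    have : (2 * Δ + 1 : ℝ) ≤ β := by exact_mod_cast hβ
    nlinarith [Nat.cast_nonneg (α := ℝ) k']
  refine h14.trans ?_
  rw [Real.rpow_add h2', Real.rpow_sub h2', div_mul_eq_mul_div, div_le_iff₀ (by positivity)]
  calc (2 : ℝ) ^ (-((k' : ℝ) / 2)) * 2 ^ ((k' : ℝ) * β)
      ≤ ((2 : ℝ) ^ ((k' : ℝ) * Δ) * (s : ℝ) ^ (2 * Δ + 1) * (2 : ℝ) ^ (-((k' : ℝ) * β))) * 2 ^ ((k' : ℝ) * β) :=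
        mul_le_mul_of_nonneg_right h13 (by positivity)
    _ = (s : ℝ) ^ (2 * Δ + 1) * 2 ^ ((k' : ℝ) * Δ) := by
        rw [mul_assoc, ← Real.rpow_add h2', neg_add_cancel, Real.rpow_zero]
        ring

/-- the parameters -/
theorem exists_params (Δ : ℕ) : ∃ m₀ : ℝ, 1 ≤ m₀ ∧ ∀ m : ℝ, m₀ ≤ m → ∃ β a : ℕ, 2 * Δ + 1 ≤ β ∧
    (16 * β) ^ (2 ^ (2 * Δ)) ≤ a ∧ (36 : ℝ) * (a : ℝ) ^ 2 ≤ m ∧ (2 : ℝ) * a + 1 ≤ m ∧
    8 * (2 * Δ + 1) * m ^ ((1 : ℝ) / (4 * 2 ^ (2 * Δ))) ≤ β := by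
  set D : ℕ := 2 ^ (2 * Δ) with hD
  have hD0 : 0 < D := by positivity
  set c : ℝ := 8 * (2 * Δ + 1) with hc
  have hc1 : 1 ≤ c := by
    rw [hc]
    have : (0 : ℝ) ≤ Δ := Nat.cast_nonneg _
    linarith
  set K : ℝ := (32 * c) ^ D with hK
  have hK1 : 1 ≤ K := one_le_pow₀ (by linarith)
  set Z : ℝ := 6 * K + 6 with hZ
  refine ⟨Z ^ 4, one_le_pow₀ (by linarith), fun m hm => ?_⟩
  have hm1 : 1 ≤ m := le_trans (one_le_pow₀ (by linarith)) hm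
  have hm0 : 0 ≤ m := by linarith
  set z : ℝ := m ^ ((1 : ℝ) / 4) with hz
  have hz4 : z ^ 4 = m := by
    rw [hz, ← Real.rpow_natCast, ← Real.rpow_mul hm0]
    norm_num
  have hz0 : 0 ≤ z := Real.rpow_nonneg hm0 _
  have hzZ : Z ≤ z := by
    apply le_of_pow_le_pow_left₀ (by norm_num : (4 : ℕ) ≠ 0) hz0
    rw [hz4]
    exact hm
  set w : ℝ := m ^ ((1 : ℝ) / (4 * (2 : ℝ) ^ (2 * Δ))) with hw
  have hw1 : 1 ≤ w := Real.one_le_rpow hm1 (by positivity)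
  have hwD : w ^ D = z := by
    rw [hw, ← Real.rpow_natCast, ← Real.rpow_mul hm0, hz]
    congr 1
    rw [hD]
    push_cast
    field_simp
  set β : ℕ := ⌈c * w⌉₊ with hβ
  have hcw : 1 ≤ c * w := by nlinarith
  have hβ1 : c * w ≤ β := Nat.le_ceil _
  have hβ2 : (β : ℝ) ≤ 2 * (c * w) := by
    have := Nat.ceil_lt_add_one (by linarith : 0 ≤ c * w)
    rw [← hβ] at this
    linarith
  set a : ℕ := ⌊z ^ 2 / 6⌋₊ with ha
  have ha1 : (a : ℝ) ≤ z ^ 2 / 6 := Nat.floor_le (by positivity)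
  have ha2 : z ^ 2 / 6 < a + 1 := Nat.lt_floor_add_one _
  have ha0 : (0 : ℝ) ≤ a := Nat.cast_nonneg _
  refine ⟨β, a, ?_, ?_, ?_, ?_, hβ1⟩
  · have h1 : ((2 * Δ + 1 : ℕ) : ℝ) ≤ β := by
      refine le_trans ?_ hβ1
      push_cast
      have : (0 : ℝ) ≤ Δ := Nat.cast_nonneg _
      nlinarith
    exact_mod_cast h1
  · have h1 : ((16 * β : ℕ) : ℝ) ^ D ≤ K * z := by
      calc ((16 * β : ℕ) : ℝ) ^ D ≤ (32 * c * w) ^ D := by
            apply pow_le_pow_left₀ (by positivity)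
            push_cast
            linarith
        _ = K * z := by rw [mul_pow, hwD]
    have h7 : K * z ≤ a := by nlinarith
    have h8 : ((16 * β : ℕ) : ℝ) ^ D ≤ a := h1.trans h7
    exact_mod_cast h8
  · have h1 : (a : ℝ) ^ 2 ≤ (z ^ 2 / 6) ^ 2 := pow_le_pow_left₀ ha0 ha1 2
    calc (36 : ℝ) * (a : ℝ) ^ 2 ≤ 36 * (z ^ 2 / 6) ^ 2 := by linarith
      _ = z ^ 4 := by ring
      _ = m := hz4
  · have hz2 : 36 ≤ z ^ 2 := by nlinarith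
    have hz4' : z ^ 4 = z ^ 2 * z ^ 2 := by ring
    nlinarith

/-- **The numbers**, for all `k`. -/
theorem num_all (Δ : ℕ) : ∃ k₀ : ℕ, ∀ n k s : ℕ, k₀ ≤ k → k + k₀ ≤ n →
    (∀ (a b κ k' u : ℕ) (θ : ℝ) (T : ℕ → ℕ), 0 < θ → θ ≤ 1 → b * k' ≤ a * κ → k = a + b + 1 + u →
      a * 2 ^ κ + b * 2 ^ k' + 1 + u ≤ n → T 0 = 2 → Monotone T → (∀ i, 1 ≤ T i) →
      (∀ i < 2 * Δ, Good (Fin a) (Fin b) (Fin κ → Bool) (Fin k' → Bool) θ (T i) (T (i + 1))) →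
      T (2 * Δ) ≤ a + b → (2 : ℝ) ^ (((k' * b : ℕ) - (κ * a : ℕ) : ℝ) / 2) ≤
        (2 ^ (a + b) * (2 ^ ((a + b) ^ 2)) ^ 2 * (s : ℝ) ^ 2) ^ Δ * s * θ) →
    ((n - k : ℕ) : ℝ) ^ ((min (k : ℝ) (Real.log ((n - k : ℕ) : ℝ))) ^ (1 / (4 : ℝ) ^ (Δ + 1))) ≤ s := by
  obtain ⟨m₀, hm₀, hp⟩ := exists_params Δ
  have hε : (1 : ℝ) / (4 : ℝ) ^ (Δ + 1) = (1 : ℝ) / (4 * 2 ^ (2 * Δ)) := by
    rw [pow_succ, pow_mul]
    norm_num [mul_comm]
  rw [hε]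
  refine ⟨⌈Real.exp (m₀ + 8)⌉₊, fun n k s hk hkn H => ?_⟩
  set N : ℕ := n - k with hN
  have hN1 : Real.exp (m₀ + 8) ≤ N := by
    refine (Nat.le_ceil _).trans ?_
    exact_mod_cast (by omega : ⌈Real.exp (m₀ + 8)⌉₊ ≤ N)
  have hk1 : Real.exp (m₀ + 8) ≤ k := by
    refine (Nat.le_ceil _).trans ?_
    exact_mod_cast hk
  have hN0 : (0 : ℝ) < N := (Real.exp_pos _).trans_le hN1
  set x : ℝ := Real.log N with hx
  have hx1 : m₀ + 8 ≤ x := (Real.le_log_iff_exp_le hN0).2 hN1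
  have hk2 : m₀ + 8 ≤ k := by
    have := Real.add_one_le_exp (m₀ + 8)
    linarith
  set m : ℝ := min (k : ℝ) x with hm
  have hmm : m₀ ≤ m := by
    rw [hm, le_min_iff]
    constructor <;> linarith
  obtain ⟨β, a, hβ, ha, ha2, ha3, hw⟩ := hp m hmm
  have hmk : m ≤ k := min_le_left _ _
  have hmx : m ≤ x := min_le_right _ _
  set ℓ := Nat.log 2 N with hℓ
  have hN0' : N ≠ 0 := by
    rintro h
    rw [h] at hN0
    simp at hN0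
  have h2 : x ≤ (ℓ + 1) * Real.log 2 := by
    have h3 : (N : ℝ) ≤ 2 ^ (ℓ + 1) := by exact_mod_cast (Nat.lt_pow_succ_log_self (by norm_num : 1 < 2) N).le
    have h4 := Real.log_le_log hN0 h3
    rw [Real.log_pow] at h4
    push_cast at h4
    exact h4
  have hl2 := Real.log_two_lt_d9
  set k' := ℓ / 2 with hk'
  have h3 : (ℓ : ℝ) ≤ 2 * k' + 1 := by
    have : ℓ ≤ 2 * k' + 1 := by omega
    exact_mod_cast this
  have hk'0 : (0 : ℝ) ≤ k' := Nat.cast_nonneg _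
  have h4 : x ≤ 2 * k' := by nlinarith
  have hak : 16 * a ^ 2 ≤ k' := by
    have h5 : (16 : ℝ) * (a : ℝ) ^ 2 ≤ k' := by nlinarith
    exact_mod_cast h5
  have hka : 2 * a + 1 ≤ k := by
    have h5 : (2 : ℝ) * a + 1 ≤ k := ha3.trans hmk
    exact_mod_cast h5
  have h2k : 2 ^ k' * 2 ^ k' ≤ n - k := by
    rw [← pow_add, ← hN]
    exact (Nat.pow_le_pow_right (by norm_num) (by omega)).trans (Nat.pow_log_le_self 2 hN0')
  have h1 := coreF Δ n k s β a k' hβ ha hak h2k hka H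
  have hk'1 : 1 ≤ k' := by
    have h5 : (1 : ℝ) ≤ k' := by linarith
    exact_mod_cast h5
  have h6 : (N : ℝ) ≤ 2 ^ ((4 * k' : ℕ) : ℝ) := by
    rw [Real.rpow_natCast]
    have h3 := (Nat.lt_pow_succ_log_self (by norm_num : 1 < 2) N).le
    have h4 : 2 ^ (Nat.log 2 N + 1) ≤ 2 ^ (4 * k') := Nat.pow_le_pow_right (by norm_num) (by omega)
    exact_mod_cast h3.trans h4
  set w : ℝ := m ^ ((1 : ℝ) / (4 * 2 ^ (2 * Δ))) with hw'
  have hw0 : 0 ≤ w := Real.rpow_nonneg (by linarith) _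
  have hm0 : 2 * Δ + 1 ≠ 0 := by omega
  apply le_of_pow_le_pow_left₀ hm0 (Nat.cast_nonneg _)
  refine le_trans ?_ h1
  calc ((N : ℝ) ^ w) ^ (2 * Δ + 1) ≤ ((2 ^ ((4 * k' : ℕ) : ℝ)) ^ w) ^ (2 * Δ + 1) := by
        gcongr
    _ = (2 : ℝ) ^ (((4 * k' : ℕ) : ℝ) * w * (2 * Δ + 1)) := by
        rw [← Real.rpow_mul (by norm_num), ← Real.rpow_natCast, ← Real.rpow_mul (by norm_num)]
        push_cast
        rfl
    _ ≤ (2 : ℝ) ^ ((k' : ℝ) * β / 2) := by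
        apply Real.rpow_le_rpow_of_exponent_le (by norm_num)
        push_cast
        nlinarith

end CDep
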