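import Pool.Agent.Helper74.CD.Sub
import Pool.Agent.Helper74.CD.NumF

/-!
# The main theorem (from the gadget)
-/

set_option autoImplicit false
set_option linter.unusedSectionVars false

namespace CDep
open Finset MvPolynomial

/-- the statement of the gadget module -/
def GadgetStat : Prop :=
  ∀ {K : Type} [Field K] [Infinite K] {Ω Y : Type} [Fintype Ω] [DecidableEq Ω] {I J Q Q' : Type} [Fintype I]
    [DecidableEq I] [Fintype J] [DecidableEq J] [Fintype Q] [DecidableEq Q] [Fintype Q'] [DecidableEq Q']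
    (π : J × Q' → I × Q) (u k : ℕ), k = Fintype.card I + Fintype.card J + 1 + u →
    Fintype.card I * 2 ^ Fintype.card Q + Fintype.card J * 2 ^ Fintype.card Q' + 1 + u ≤ Fintype.card Ω →
    ∀ f : MvPolynomial (Sym2 Ω ⊕ Y) K, Multilin f → Detects k f →
    ∃ φ : Sym2 Ω ⊕ Y → MvPolynomial ((I × (Q → Bool)) ⊕ (J × (Q' → Bool))) K,
      (∀ e, φ e = 0 ∨ (∃ c, φ e = C c) ∨ ∃ x, φ e = X x) ∧
      ∀ ρ γ, cmp (aeval φ f) (Finset.univ : Finset (I ⊕ J)) ρ γ ≠ 0 ↔ γ = gam π ρ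

theorem main_of_gadget (HG : GadgetStat) (Δ : ℕ) : ∃ k₀ : ℕ, ∀ (F : Type) [Field F] (Y : Type)
    (n k s : ℕ) (f : MvPolynomial (Sym2 (Fin n) ⊕ Y) F), k₀ ≤ k → k + k₀ ≤ n → Multilin f →
    Detects k f → Comp Δ s f →
    ((n - k : ℕ) : ℝ) ^ ((min (k : ℝ) (Real.log ((n - k : ℕ) : ℝ))) ^ (1 / (4 : ℝ) ^ (Δ + 1))) ≤ s := by
  obtain ⟨k₀, H⟩ := num_all Δ
  refine ⟨k₀, ?_⟩
  intro F _ Y n k s f hk hkn hm hd hc
  refine H n k s hk hkn ?_
  intro a b κ k' u θ T hθ hθ1 hbk hku hnu hT0 hmono _ hgood hT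
  classical
  obtain ⟨π⟩ : Nonempty (Fin b × Fin k' ↪ Fin a × Fin κ) := by
    apply Function.Embedding.nonempty_of_card_le
    rw [Fintype.card_prod, Fintype.card_prod, Fintype.card_fin, Fintype.card_fin, Fintype.card_fin, Fintype.card_fin]
    exact hbk
  obtain ⟨φ, hφ, hpat⟩ := HG (K := AlgebraicClosure F) (Ω := Fin n) (Y := Y) (I := Fin a) (J := Fin b) (Q := Fin κ)
    (Q' := Fin k') π u k (by rw [Fintype.card_fin, Fintype.card_fin]; exact hku)
    (by rw [Fintype.card_fin, Fintype.card_fin, Fintype.card_fin, Fintype.card_fin, Fintype.card_fin]; exact hnu)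
    (map (algebraMap F (AlgebraicClosure F)) f) (multilin_map hm) (detects_map hd)
  have hcard : Fintype.card (Fin a ⊕ Fin b) = a + b := by
    rw [Fintype.card_sum, Fintype.card_fin, Fintype.card_fin]
  have h1 := circ_bound (I := Fin a) (J := Fin b) (U := Fin κ → Bool) (V := Fin k' → Bool) Δ s _
    (comp_aeval (comp_map (K := AlgebraicClosure F) hc) φ hφ) θ hθ hθ1 T hT0 hmono hgood univ
    (by rw [card_univ, hcard]; exact hT)
  have h2 := mu_pattern (π : Fin b × Fin k' → Fin a × Fin κ) π.injective _ hpat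
  rw [hcard] at h1
  rw [Fintype.card_fin, Fintype.card_fin, Fintype.card_fin, Fintype.card_fin] at h2
  exact h2.trans h1

end CDep
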