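import Pool.Agent.Helper74.CD.Defs

/-!
# Rank of sums and of Hadamard products; the relative rank
-/

set_option autoImplicit false
set_option linter.unusedSectionVars false

namespace CDep
open Finset Matrix

section rank

variable {m n F : Type} [Fintype m] [Fintype n] [Field F]

/-- rank factorisation -/
theorem exists_fact (A : Matrix m n F) : ∃ (B : Matrix m (Fin A.rank) F) (C : Matrix (Fin A.rank) n F), A = B * C := by
  classical
  have hfr : Module.finrank F (LinearMap.range A.mulVecLin) = A.rank := rfl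
  let bs := Module.finBasisOfFinrankEq F (LinearMap.range A.mulVecLin) hfr
  refine ⟨Matrix.of fun i t => (bs t : m → F) i, Matrix.of fun t j => bs.repr ⟨A.mulVecLin (Pi.single j 1), LinearMap.mem_range_self _ _⟩ t, ?_⟩
  ext i j
  rw [Matrix.mul_apply]
  simp only [Matrix.of_apply]
  have h1 := bs.sum_repr ⟨A.mulVecLin (Pi.single j 1), LinearMap.mem_range_self _ _⟩
  have h2 := congrArg (fun x : LinearMap.range A.mulVecLin => (x : m → F) i) h1
  simp only [Submodule.coe_sum, Finset.sum_apply, Submodule.coe_smul, Pi.smul_apply, smul_eq_mul] at h2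
  have h3 : A.mulVecLin (Pi.single j 1) i = A i j := by
    rw [Matrix.mulVecLin_apply, Matrix.mulVec_single]
    simp
  rw [← h3, ← h2]
  exact Finset.sum_congr rfl fun t _ => mul_comm _ _

theorem rank_le_of_fact {ι : Type} [Fintype ι] (A : Matrix m n F) (B : Matrix m ι F) (C : Matrix ι n F)
    (h : A = B * C) : A.rank ≤ Fintype.card ι := by
  rw [h]
  exact (Matrix.rank_mul_le_left _ _).trans (Matrix.rank_le_card_width _)

theorem rank_add_le' (A B : Matrix m n F) : (A + B).rank ≤ A.rank + B.rank := by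
  obtain ⟨A1, A2, hA⟩ := exists_fact A
  obtain ⟨B1, B2, hB⟩ := exists_fact B
  have h : A + B = (Matrix.of fun i (t : Fin A.rank ⊕ Fin B.rank) => Sum.elim (A1 i) (B1 i) t) *
      (Matrix.of fun (t : Fin A.rank ⊕ Fin B.rank) j => Sum.elim (fun t => A2 t j) (fun t => B2 t j) t) := by
    ext i j
    rw [Matrix.mul_apply, Fintype.sum_sum_type, Matrix.add_apply]
    simp only [Matrix.of_apply, Sum.elim_inl, Sum.elim_inr]
    conv_lhs => rw [hA, hB]
    rw [Matrix.mul_apply, Matrix.mul_apply]
  refine (rank_le_of_fact _ _ _ h).trans ?_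
  rw [Fintype.card_sum, Fintype.card_fin, Fintype.card_fin]

theorem rank_hadamard_le' (A B : Matrix m n F) : (Matrix.of fun i j => A i j * B i j).rank ≤ A.rank * B.rank := by
  obtain ⟨A1, A2, hA⟩ := exists_fact A
  obtain ⟨B1, B2, hB⟩ := exists_fact B
  have h : (Matrix.of fun i j => A i j * B i j) =
      (Matrix.of fun i (t : Fin A.rank × Fin B.rank) => A1 i t.1 * B1 i t.2) *
      (Matrix.of fun (t : Fin A.rank × Fin B.rank) j => A2 t.1 j * B2 t.2 j) := by
    ext i j
    rw [Matrix.mul_apply, Fintype.sum_prod_type]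
    simp only [Matrix.of_apply]
    conv_lhs => rw [hA, hB]
    rw [Matrix.mul_apply, Matrix.mul_apply, Finset.sum_mul]
    refine Finset.sum_congr rfl fun s _ => ?_
    rw [Finset.mul_sum]
    exact Finset.sum_congr rfl fun t _ => by ring
  refine (rank_le_of_fact _ _ _ h).trans ?_
  rw [Fintype.card_prod, Fintype.card_fin, Fintype.card_fin]

theorem rank_smul_le' (c : F) (A : Matrix m n F) : (c • A).rank ≤ A.rank := by
  obtain ⟨A1, A2, hA⟩ := exists_fact A
  have h : c • A = (c • A1) * A2 := by
    conv_lhs => rw [hA]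
    rw [Matrix.smul_mul]
  refine (rank_le_of_fact _ _ _ h).trans ?_
  rw [Fintype.card_fin]

end rank

section mu

variable {I J U V F : Type} [Fintype I] [DecidableEq I] [Fintype J] [DecidableEq J] [Fintype U] [DecidableEq U]
  [Fintype V] [DecidableEq V] [Field F]

/-- the Hadamard product -/
def hd (A B : Matrix (I → U) (J → V) F) : Matrix (I → U) (J → V) F := Matrix.of fun i j => A i j * B i j

theorem hd_apply (A B : Matrix (I → U) (J → V) F) (ρ : I → U) (γ : J → V) : hd A B ρ γ = A ρ γ * B ρ γ := rfl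

/-- The matrix depends only on the blocks in `S`. -/
def Dep (S : Finset (I ⊕ J)) (A : Matrix (I → U) (J → V) F) : Prop :=
  ∀ ρ ρ' γ γ', (∀ i, Sum.inl i ∈ S → ρ i = ρ' i) → (∀ j, Sum.inr j ∈ S → γ j = γ' j) → A ρ γ = A ρ' γ'

variable [Nonempty U] [Nonempty V]

theorem NN_pos (S : Finset (I ⊕ J)) : 0 < NN U V S := by
  unfold NN
  have h1 : (0 : ℝ) < Fintype.card U := by exact_mod_cast Fintype.card_pos
  have h2 : (0 : ℝ) < Fintype.card V := by exact_mod_cast Fintype.card_pos
  positivity

theorem NN_union (S T : Finset (I ⊕ J)) (h : Disjoint S T) : NN U V (S ∪ T) = NN U V S * NN U V T := by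
  have h1 : (S ∪ T).toLeft.card = S.toLeft.card + T.toLeft.card := by
    rw [Finset.toLeft_union, Finset.card_union_of_disjoint]
    rw [Finset.disjoint_left] at h ⊢
    intro a ha hb
    exact h (Finset.mem_toLeft.1 ha) (Finset.mem_toLeft.1 hb)
  have h2 : (S ∪ T).toRight.card = S.toRight.card + T.toRight.card := by
    rw [Finset.toRight_union, Finset.card_union_of_disjoint]
    rw [Finset.disjoint_left] at h ⊢
    intro a ha hb
    exact h (Finset.mem_toRight.1 ha) (Finset.mem_toRight.1 hb)
  unfold NN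
  rw [← Real.sqrt_mul (by positivity), h1, h2]
  congr 1
  rw [pow_add, pow_add]
  ring

theorem mu_nonneg (S : Finset (I ⊕ J)) (A : Matrix (I → U) (J → V) F) : 0 ≤ mu S A := by
  unfold mu
  exact div_nonneg (Nat.cast_nonneg _) (NN_pos S).le

theorem mu_add_le (S : Finset (I ⊕ J)) (A B : Matrix (I → U) (J → V) F) : mu S (A + B) ≤ mu S A + mu S B := by
  unfold mu
  rw [← add_div]
  refine div_le_div_of_nonneg_right ?_ (NN_pos S).le
  exact_mod_cast rank_add_le' A B

theorem mu_smul_le (S : Finset (I ⊕ J)) (c : F) (A : Matrix (I → U) (J → V) F) : mu S (c • A) ≤ mu S A := by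
  unfold mu
  refine div_le_div_of_nonneg_right ?_ (NN_pos S).le
  exact_mod_cast rank_smul_le' c A

theorem mu_neg_le (S : Finset (I ⊕ J)) (A : Matrix (I → U) (J → V) F) : mu S (-A) ≤ mu S A := by
  have h := mu_smul_le S (-1) A
  rwa [neg_one_smul] at h

theorem mu_zero (S : Finset (I ⊕ J)) : mu S (0 : Matrix (I → U) (J → V) F) = 0 := by
  unfold mu
  rw [Matrix.rank_zero, Nat.cast_zero, zero_div]

theorem mu_sum_le {ι : Type*} (t : Finset ι) (S : Finset (I ⊕ J)) (A : ι → Matrix (I → U) (J → V) F) :
    mu S (∑ i ∈ t, A i) ≤ ∑ i ∈ t, mu S (A i) := by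
  classical
  induction t using Finset.induction_on with
  | empty => rw [Finset.sum_empty, Finset.sum_empty, mu_zero]
  | insert a t ha ih =>
    rw [Finset.sum_insert ha, Finset.sum_insert ha]
    exact (mu_add_le _ _ _).trans (add_le_add le_rfl ih)

theorem mu_hd_le (S T : Finset (I ⊕ J)) (h : Disjoint S T) (A B : Matrix (I → U) (J → V) F) :
    mu (S ∪ T) (hd A B) ≤ mu S A * mu T B := by
  unfold mu
  rw [NN_union S T h, div_mul_div_comm]
  refine div_le_div_of_nonneg_right ?_ (mul_pos (NN_pos S) (NN_pos T)).le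
  exact_mod_cast rank_hadamard_le' A B

theorem mu_le_om (S : Finset (I ⊕ J)) (A : Matrix (I → U) (J → V) F) (h : Dep S A) : mu S A ≤ om U V S := by
  classical
  unfold mu om
  refine div_le_div_of_nonneg_right (le_min ?_ ?_) (NN_pos S).le
  · -- rows
    let u0 : U := Classical.arbitrary U
    let ex : (S.toLeft → U) → (I → U) := fun r i => if hi : i ∈ S.toLeft then r ⟨i, hi⟩ else u0
    have h1 : A = (Matrix.of fun (ρ : I → U) (r : S.toLeft → U) => if (fun i : S.toLeft => ρ i) = r then (1 : F) else 0) *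
        (Matrix.of fun (r : S.toLeft → U) γ => A (ex r) γ) := by
      ext ρ γ
      rw [Matrix.mul_apply, Finset.sum_eq_single (fun i : S.toLeft => ρ i)]
      · simp only [Matrix.of_apply, if_true, one_mul]
        refine h _ _ _ _ (fun i hi => ?_) (fun _ _ => rfl)
        simp only [ex]
        rw [dif_pos (Finset.mem_toLeft.2 hi)]
      · intro r _ hr
        simp only [Matrix.of_apply]
        rw [if_neg (Ne.symm hr), zero_mul]
      · intro h
        exact absurd (mem_univ _) h
    have h2 := rank_le_of_fact _ _ _ h1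
    rw [Fintype.card_fun, Fintype.card_coe] at h2
    exact_mod_cast h2
  · let v0 : V := Classical.arbitrary V
    let ex : (S.toRight → V) → (J → V) := fun r i => if hi : i ∈ S.toRight then r ⟨i, hi⟩ else v0
    have h1 : A = (Matrix.of fun ρ (r : S.toRight → V) => A ρ (ex r)) *
        (Matrix.of fun (r : S.toRight → V) (γ : J → V) => if (fun i : S.toRight => γ i) = r then (1 : F) else 0) := by
      ext ρ γ
      rw [Matrix.mul_apply, Finset.sum_eq_single (fun i : S.toRight => γ i)]
      · simp only [Matrix.of_apply, if_true, mul_one]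
        refine h _ _ _ _ (fun _ _ => rfl) (fun i hi => ?_)
        simp only [ex]
        rw [dif_pos (Finset.mem_toRight.2 hi)]
      · intro r _ hr
        simp only [Matrix.of_apply]
        rw [if_neg (Ne.symm hr), mul_zero]
      · intro h
        exact absurd (mem_univ _) h
    have h2 := rank_le_of_fact _ _ _ h1
    rw [Fintype.card_fun, Fintype.card_coe] at h2
    exact_mod_cast h2

theorem om_nonneg (S : Finset (I ⊕ J)) : 0 ≤ om U V S := by
  unfold om
  have := NN_pos (U := U) (V := V) S
  positivity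

theorem om_le_one (S : Finset (I ⊕ J)) : om U V S ≤ 1 := by
  unfold om
  rw [div_le_one (NN_pos S)]
  unfold NN
  refine Real.le_sqrt_of_sq_le ?_
  have h1 : (0 : ℝ) ≤ (Fintype.card U : ℝ) ^ S.toLeft.card := by positivity
  have h2 : (0 : ℝ) ≤ (Fintype.card V : ℝ) ^ S.toRight.card := by positivity
  rw [pow_two]
  exact mul_le_mul (min_le_left _ _) (min_le_right _ _) (le_min h1 h2) h1

theorem mu_le_one (S : Finset (I ⊕ J)) (A : Matrix (I → U) (J → V) F) (h : Dep S A) : mu S A ≤ 1 :=
  (mu_le_om S A h).trans (om_le_one S)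

end mu

end CDep
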