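import Pool.Agent.Helper74.CD.Circ

/-!
# Substitutions, field extensions, the rank of the pattern
-/

set_option autoImplicit false
set_option linter.unusedSectionVars false

namespace CDep
open Finset MvPolynomial

section ops

variable {σ τ F K : Type} [Field F] [Field K]

/-- images of circuits -/
theorem comp_image {Δ s : ℕ} {P : MvPolynomial σ F} (hP : Comp Δ s P) (h : MvPolynomial σ F →+* MvPolynomial τ K)
    (hC : ∀ c : F, ∃ c' : K, h (C c) = C c') (hX : ∀ e, h (X e) ∈ Submodule.span K ({1} ∪ Set.range X)) :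
    Comp Δ s (h P) := by
  obtain ⟨r, y, dep, m, G, hdep, hy, hG, hPs, hs⟩ := hP
  have key : ∀ (Q Q' : Set (MvPolynomial τ K)) (R : Set (MvPolynomial σ F)), (∀ g ∈ R, h g ∈ Submodule.span K Q') →
      Submodule.span K ({1} ∪ Set.range X) ≤ Submodule.span K Q' → ∀ g ∈ Submodule.span F ({1} ∪ Set.range X ∪ R),
      h g ∈ Submodule.span K Q' := by
    intro _ Q' R hR hle g hg
    induction hg using Submodule.span_induction with
    | mem g hg =>
      rcases hg with (hg | ⟨x, rfl⟩) | hg
      · rw [Set.mem_singleton_iff] at hg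
        subst hg
        rw [map_one]
        exact hle (Submodule.subset_span (Or.inl rfl))
      · exact hle (hX x)
      · exact hR g hg
    | zero => rw [map_zero]; exact Submodule.zero_mem _
    | add g g' _ _ hg hg' => rw [map_add]; exact Submodule.add_mem _ hg hg'
    | smul a g _ hg =>
      rw [smul_eq_C_mul, map_mul]
      obtain ⟨c', hc'⟩ := hC a
      rw [hc', ← smul_eq_C_mul]
      exact Submodule.smul_mem _ _ hg
  refine ⟨r, fun j => h (y j), dep, m, fun j i => h (G j i), hdep, fun j => ?_, fun j i => ?_, ?_, hs⟩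
  · show h (y j) = ∏ i, h (G j i)
    rw [hy j, map_prod]
  · refine key ∅ _ _ ?_ (Submodule.span_mono Set.subset_union_left) _ (hG j i)
    rintro g ⟨j', hj', rfl⟩
    exact Submodule.subset_span (Or.inr ⟨j', hj', rfl⟩)
  · refine key ∅ _ _ ?_ (Submodule.span_mono Set.subset_union_left) _ hPs
    rintro g ⟨j', rfl⟩
    exact Submodule.subset_span (Or.inr ⟨j', rfl⟩)

theorem comp_aeval {Δ s : ℕ} {P : MvPolynomial σ F} (hP : Comp Δ s P) (φ : σ → MvPolynomial τ F)
    (hφ : ∀ e, φ e = 0 ∨ (∃ c, φ e = C c) ∨ ∃ x, φ e = X x) : Comp Δ s (aeval φ P) := by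
  refine comp_image hP (aeval φ : MvPolynomial σ F →ₐ[F] MvPolynomial τ F).toRingHom (fun c => ⟨c, ?_⟩) (fun e => ?_)
  · rw [← MvPolynomial.algebraMap_eq]
    exact AlgHom.commutes _ _
  · have h1 : (aeval φ : MvPolynomial σ F →ₐ[F] MvPolynomial τ F).toRingHom (X e) = φ e := aeval_X _ _
    rw [h1]
    rcases hφ e with h | ⟨c, h⟩ | ⟨x, h⟩
    · rw [h]
      exact Submodule.zero_mem _
    · rw [h, ← mul_one (C c), ← smul_eq_C_mul]
      exact Submodule.smul_mem _ _ (Submodule.subset_span (Or.inl rfl))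
    · rw [h]
      exact Submodule.subset_span (Or.inr ⟨x, rfl⟩)

theorem comp_map [Algebra F K] {Δ s : ℕ} {P : MvPolynomial σ F} (hP : Comp Δ s P) :
    Comp Δ s (map (algebraMap F K) P) := by
  refine comp_image hP (map (algebraMap F K)) (fun c => ⟨algebraMap F K c, map_C _ _⟩) (fun e => ?_)
  rw [map_X]
  exact Submodule.subset_span (Or.inr ⟨e, rfl⟩)

end ops

section tests

variable {Ω Y F K : Type} [Field F] [Field K] [Algebra F K]

theorem map_restr (G : SimpleGraph Ω) (f : MvPolynomial (Sym2 Ω ⊕ Y) F) :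
    restr G (map (algebraMap F K) f) = map (algebraMap F K) (restr G f) := by
  classical
  induction f using MvPolynomial.induction_on with
  | C a =>
    rw [map_C, ← algebraMap_eq, ← algebraMap_eq, AlgHom.commutes, AlgHom.commutes, algebraMap_eq, algebraMap_eq, map_C]
  | add p q hp hq => rw [map_add, map_add, map_add, map_add, hp, hq]
  | mul_X p e hp =>
    rw [map_mul, map_mul, map_mul, map_mul, hp, map_X]
    congr 1
    unfold restr
    rw [aeval_X, aeval_X]
    rcases e with e | y
    · simp only [Sum.elim_inl]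
      split_ifs
      · rw [map_X]
      · rw [map_zero]
    · simp only [Sum.elim_inr]
      rw [map_X]

theorem detects_map {k : ℕ} {f : MvPolynomial (Sym2 Ω ⊕ Y) F} (hf : Detects k f) :
    Detects k (map (algebraMap F K) f) := by
  intro G
  rw [map_restr, ← hf G, Ne, Ne, map_eq_zero_iff _ (map_injective _ (algebraMap F K).injective)]

theorem multilin_map {f : MvPolynomial (Sym2 Ω ⊕ Y) F} (hf : Multilin f) :
    Multilin (map (algebraMap F K) f) := by
  intro s hs e
  refine hf s (fun h0 => hs ?_) e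
  rw [coeff_map, h0, map_zero]

end tests

section pattern

variable {I J Q Q' F : Type} [Fintype I] [DecidableEq I] [Fintype J] [DecidableEq J] [Fintype Q] [DecidableEq Q]
  [Fintype Q'] [DecidableEq Q'] [Field F]

theorem gam_surj (π : J × Q' → I × Q) (hπ : Function.Injective π) (γ : J → (Q' → Bool)) :
    ∃ ρ : I → (Q → Bool), gam π ρ = γ := by
  classical
  refine ⟨fun i q => if h : ∃ x, π x = (i, q) then γ h.choose.1 h.choose.2 else false, ?_⟩
  funext j q'
  unfold gam
  have h : ∃ x, π x = ((π (j, q')).1, (π (j, q')).2) := ⟨(j, q'), rfl⟩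
  have h1 : h.choose = (j, q') := hπ h.choose_spec
  show (if h : ∃ x, π x = ((π (j, q')).1, (π (j, q')).2) then γ h.choose.1 h.choose.2 else false) = γ j q'
  rw [dif_pos h, h1]

theorem rank_pattern (π : J × Q' → I × Q) (hπ : Function.Injective π)
    (A : Matrix (I → (Q → Bool)) (J → (Q' → Bool)) F) (hA : ∀ ρ γ, A ρ γ ≠ 0 ↔ γ = gam π ρ) :
    2 ^ (Fintype.card Q' * Fintype.card J) ≤ A.rank := by
  classical
  choose R hR using gam_surj π hπ
  have h1 : A.submatrix R id = Matrix.diagonal fun γ => A (R γ) γ := by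
    ext γ γ'
    rw [Matrix.submatrix_apply, Matrix.diagonal_apply]
    split_ifs with h
    · rw [h]
      rfl
    · by_contra hcon
      have := (hA _ _).1 hcon
      rw [hR] at this
      exact h this.symm
  have h2 := Matrix.rank_submatrix_le A R id
  rw [h1] at h2
  refine le_trans ?_ h2
  rw [Matrix.rank_of_det_ne_zero]
  · rw [Fintype.card_fun, Fintype.card_fun, Fintype.card_bool, ← pow_mul]
  · rw [Matrix.det_diagonal]
    exact Finset.prod_ne_zero_iff.2 fun γ _ => (hA _ _).2 (hR γ).symm

theorem toLeft_univ' : (univ : Finset (I ⊕ J)).toLeft = univ := by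
  ext
  simp

theorem toRight_univ' : (univ : Finset (I ⊕ J)).toRight = univ := by
  ext
  simp

/-- the relative rank of the pattern -/
theorem mu_pattern (π : J × Q' → I × Q) (hπ : Function.Injective π)
    (A : Matrix (I → (Q → Bool)) (J → (Q' → Bool)) F) (hA : ∀ ρ γ, A ρ γ ≠ 0 ↔ γ = gam π ρ) :
    (2 : ℝ) ^ (((Fintype.card Q' * Fintype.card J : ℕ) - (Fintype.card Q * Fintype.card I : ℕ) : ℝ) / 2) ≤
      mu (univ : Finset (I ⊕ J)) A := by
  have h1 : (2 : ℝ) ^ (Fintype.card Q' * Fintype.card J) ≤ A.rank := by exact_mod_cast rank_pattern π hπ A hA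
  have hN : NN (Q → Bool) (Q' → Bool) (univ : Finset (I ⊕ J)) =
      (2 : ℝ) ^ (((Fintype.card Q * Fintype.card I : ℕ) + (Fintype.card Q' * Fintype.card J : ℕ) : ℝ) / 2) := by
    unfold NN
    rw [toLeft_univ', toRight_univ', card_univ, card_univ, Fintype.card_fun, Fintype.card_fun, Fintype.card_bool,
      Real.sqrt_eq_rpow]
    push_cast
    rw [← pow_mul, ← pow_mul, ← pow_add, ← Real.rpow_natCast, ← Real.rpow_mul (by norm_num)]
    congr 1
    push_cast
    ring
  unfold mu
  rw [le_div_iff₀ (NN_pos _), hN, ← Real.rpow_add (by norm_num)]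
  refine le_trans (le_of_eq ?_) h1
  rw [← Real.rpow_natCast]
  congr 1
  push_cast
  ring

end pattern

end CDep
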